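import Mathlib

/-! # Edges, edge lengths and dihedral angles of a tetrahedron (helper83) -/

set_option autoImplicit false

namespace Pool.Agent.TetRel

/-- Euclidean 3-space. -/
abbrev E3 : Type := EuclideanSpace ℝ (Fin 3)

/-- The six edges are numbered 01, 02, 03, 12, 13, 23; `ea i` is the first end of edge `i`. -/
def ea : Fin 6 → Fin 4 := ![0, 0, 0, 1, 1, 2]

/-- `eb i` is the second end of edge `i`. -/
def eb : Fin 6 → Fin 4 := ![1, 2, 3, 2, 3, 3]

/-- `ec i` is the first of the two vertices that are not ends of edge `i`. -/
def ec : Fin 6 → Fin 4 := ![2, 1, 1, 0, 0, 0]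

/-- `ed i` is the second of the two vertices that are not ends of edge `i`. -/
def ed : Fin 6 → Fin 4 := ![3, 3, 2, 3, 2, 1]

/-- the component of `w` orthogonal to `u` -/
noncomputable def perp (u w : E3) : E3 := w - (inner ℝ u w / inner ℝ u u) • u

/-- the length of edge `i` -/
noncomputable def len (v : Fin 4 → E3) (i : Fin 6) : ℝ := dist (v (ea i)) (v (eb i))

/-- The dihedral angle at edge `i`: the angle between the components, orthogonal to the edge,
of the vectors from an end of the edge to the other two vertices. -/
noncomputable def dih (v : Fin 4 → E3) (i : Fin 6) : ℝ :=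
  InnerProductGeometry.angle (perp (v (eb i) - v (ea i)) (v (ec i) - v (ea i)))
    (perp (v (eb i) - v (ea i)) (v (ed i) - v (ea i)))

/-- The tetrahedron with vertices `v 0, .., v 3` tiles space monohedrally: some family of
congruent copies (reflected copies allowed, not necessarily face-to-face) covers space, and the
interiors of different copies are disjoint. -/
def Tiles (v : Fin 4 → E3) : Prop :=
  ∃ S : Set (Set E3), (∀ A ∈ S, ∃ φ : E3 ≃ᵢ E3, A = φ '' convexHull ℝ (Set.range v)) ∧
    ⋃₀ S = Set.univ ∧ S.Pairwise (fun A B => Disjoint (interior A) (interior B))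

end Pool.Agent.TetRel
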