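import Pool.Agent.TetRel.Frac
import Pool.Agent.TetraTile.Wedge

/-! # The volume fraction at an edge is the dihedral angle divided by `2 π` (helper97) -/

set_option autoImplicit false

open MeasureTheory Set Module Metric

namespace Pool.Agent.TetRel

variable (b : AffineBasis (Fin 4) ℝ E3)

/-- a vector in terms of the linear parts of the barycentric coordinates -/
lemma eq_sum_lin (w : E3) : w = ∑ c, lin b c w • b c := by
  have h1 : ∑ c, b.coord c (0 + w) • b c = (0 + w) := b.linear_combination_coord_eq_self _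
  have h2 : ∑ c, b.coord c (0 : E3) • b c = 0 := b.linear_combination_coord_eq_self _
  have h3 : ∀ c, b.coord c (0 + w) • b c = b.coord c (0 : E3) • b c + lin b c w • b c := by
    intro c
    rw [coord_add, add_smul]
  rw [Finset.sum_congr rfl (fun c _ => h3 c), Finset.sum_add_distrib, h2, zero_add, zero_add] at h1
  exact h1.symm

lemma lin_sub (c a d : Fin 4) : lin b c (b d - b a) = b.coord c (b d) - b.coord c (b a) := by
  have h1 : b.coord c (b d) = b.coord c (b a) + lin b c (b d - b a) := by
    rw [← coord_add]; congr 1; abel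
  linarith

lemma eq_three (i : Fin 6) (w : E3) :
    w = lin b (eb i) w • (b (eb i) - b (ea i)) + lin b (ec i) w • (b (ec i) - b (ea i))
      + lin b (ed i) w • (b (ed i) - b (ea i)) := by
  have h1 := eq_sum_lin b w
  have h2 := sum_lin b w
  rw [Fin.sum_univ_four] at h1 h2
  conv_lhs => rw [h1]
  fin_cases i <;> simp only [ea, eb, ec, ed, Fin.reduceFinMk, Fin.zero_eta, Fin.mk_one,
      Matrix.cons_val, Fin.isValue, Matrix.cons_val_zero, Matrix.cons_val_one]
  · have h3 : lin b 0 w = -(lin b 1 w + lin b 2 w + lin b 3 w) := by linarith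
    rw [h3]; module
  · have h3 : lin b 0 w = -(lin b 1 w + lin b 2 w + lin b 3 w) := by linarith
    rw [h3]; module
  · have h3 : lin b 0 w = -(lin b 1 w + lin b 2 w + lin b 3 w) := by linarith
    rw [h3]; module
  · have h3 : lin b 1 w = -(lin b 0 w + lin b 2 w + lin b 3 w) := by linarith
    rw [h3]; module
  · have h3 : lin b 1 w = -(lin b 0 w + lin b 2 w + lin b 3 w) := by linarith
    rw [h3]; module
  · have h3 : lin b 2 w = -(lin b 0 w + lin b 1 w + lin b 3 w) := by linarith
    rw [h3]; module

lemma coord_vals (c d : Fin 4) : b.coord c (b d) = if c = d then 1 else 0 := by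
  rw [b.coord_apply]

lemma lin_comb (i : Fin 6) (t x y : ℝ) :
    lin b (eb i) (t • (b (eb i) - b (ea i)) + x • (b (ec i) - b (ea i))
      + y • (b (ed i) - b (ea i))) = t ∧
    lin b (ec i) (t • (b (eb i) - b (ea i)) + x • (b (ec i) - b (ea i))
      + y • (b (ed i) - b (ea i))) = x ∧
    lin b (ed i) (t • (b (eb i) - b (ea i)) + x • (b (ec i) - b (ea i))
      + y • (b (ed i) - b (ea i))) = y := by
  simp only [map_add, map_smul, lin_sub, coord_vals, smul_eq_mul]
  fin_cases i <;> simp [ea, eb, ec, ed]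

lemma li (i : Fin 6) : LinearIndependent ℝ
    ![b (eb i) - b (ea i), b (ec i) - b (ea i), b (ed i) - b (ea i)] := by
  rw [Fintype.linearIndependent_iff]
  intro g hg
  rw [Fin.sum_univ_three] at hg
  simp only [Matrix.cons_val_zero, Matrix.cons_val_one, Matrix.cons_val] at hg
  obtain ⟨h1, h2, h3⟩ := lin_comb b i (g 0) (g 1) (g 2)
  rw [hg, map_zero] at h1 h2 h3
  intro j
  fin_cases j
  · exact h1.symm
  · exact h2.symm
  · exact h3.symm

lemma W_eq_wedge (i : Fin 6) : W b (fc i) 1
    = Pool.TetraTile.wedge (b (eb i) - b (ea i)) (b (ec i) - b (ea i)) (b (ed i) - b (ea i))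
      ∩ ball 0 1 := by
  ext w
  constructor
  · rintro ⟨h1, h2⟩
    refine ⟨⟨lin b (eb i) w, lin b (ec i) w, lin b (ed i) w, h2 _ (by simp [fc]),
      h2 _ (by simp [fc]), eq_three b i w⟩, h1⟩
  · rintro ⟨⟨t, x, y, hx, hy, hw⟩, h1⟩
    refine ⟨h1, fun c hc => ?_⟩
    obtain ⟨_, h3, h4⟩ := lin_comb b i t x y
    rw [← hw] at h3 h4
    simp only [fc, Finset.mem_insert, Finset.mem_singleton] at hc
    rcases hc with rfl | rfl
    · rw [h3]; exact hx
    · rw [h4]; exact hy

/-- The volume fraction cut out by the two faces at an edge is the dihedral angle over `2 π`. -/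
theorem fr_edge (i : Fin 6) : fr b (fc i) = dih b i / (2 * Real.pi) := by
  have hw := Pool.TetraTile.volume_wedge (li b i)
  rw [← W_eq_wedge] at hw
  obtain ⟨c, hc⟩ : ∃ c : NNReal, vol = c • (volume : Measure E3) :=
    ⟨_, Measure.isAddLeftInvariant_eq_smul vol volume⟩
  have hv : ∀ s : Set E3, vr s = c * (volume s).toReal := by
    intro s
    unfold vr
    rw [hc, Measure.smul_apply, ENNReal.smul_def, smul_eq_mul, ENNReal.toReal_mul]
    rfl
  have hp := vr_ball_pos (0 : E3) (r := 1) one_pos
  have hd : (dih b i) = InnerProductGeometry.angle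
      (Pool.TetraTile.orth (b (eb i) - b (ea i)) (b (ec i) - b (ea i)))
      (Pool.TetraTile.orth (b (eb i) - b (ea i)) (b (ed i) - b (ea i))) := rfl
  have hn : 0 ≤ dih b i / (2 * Real.pi) := by
    have : 0 ≤ dih b i := InnerProductGeometry.angle_nonneg _ _
    have := Real.pi_pos
    positivity
  unfold fr
  rw [div_eq_iff hp.ne', hv, hv, hw, ENNReal.toReal_mul, ← hd, ENNReal.toReal_ofReal hn]
  ring

end Pool.Agent.TetRel
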