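import Pool.Agent.TetRel.Edge
import Pool.Agent.TetRel.Dihedral

/-! # `om b i` is the dihedral angle at edge `i` divided by `2 π` (helper97) -/

set_option autoImplicit false

namespace Pool.Agent.TetRel

/-- The volume fraction at an interior point of edge `i` is the dihedral angle over `2 π`. -/
theorem om_eq (b : AffineBasis (Fin 4) ℝ E3) (i : Fin 6) :
    om b i = dih (b : Fin 4 → E3) i / (2 * Real.pi) :=
  fr_edge b i

end Pool.Agent.TetRel
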