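import Pool.Agent.TetRel.Edge

/-! # Integration along the edges and the limit (helper83) -/

set_option autoImplicit false

open MeasureTheory Set Module Metric
open scoped Pointwise

namespace Pool.Agent.TetRel

variable (b : AffineBasis (Fin 4) ℝ E3) (Φ : Set E3 → (E3 ≃ᵢ E3))

/-- the part of edge `i` of the tile `A` in the ball of radius `R` -/
def seg (A : Set E3) (i : Fin 6) (R : ℝ) : Set E3 := (Φ A '' Eo b i) ∩ ball (0 : E3) R

lemma seg_meas (A : Set E3) (i : Fin 6) (R : ℝ) : MeasurableSet (seg b Φ A i R) :=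
  ((Φ A).toHomeomorph.measurableEmbedding.measurableSet_image.2 (Eo_meas b i)).inter
    measurableSet_ball

lemma H1_img (A : Set E3) (i : Fin 6) :
    (μH[1] : Measure E3) (Φ A '' Eo b i) = ENNReal.ofReal (ln b i) := by
  rw [(Φ A).hausdorffMeasure_image, H1_Eo]

lemma seg_le (A : Set E3) (i : Fin 6) (R : ℝ) :
    (μH[1] : Measure E3) (seg b Φ A i R) ≤ ENNReal.ofReal (ln b i) := by
  rw [← H1_img b Φ A i]; exact measure_mono inter_subset_left

lemma seg_lt (A : Set E3) (i : Fin 6) (R : ℝ) :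
    (μH[1] : Measure E3) (seg b Φ A i R) < ⊤ :=
  (seg_le b Φ A i R).trans_lt ENNReal.ofReal_lt_top

lemma seg_real_le (A : Set E3) (i : Fin 6) (R : ℝ) :
    (μH[1] : Measure E3).real (seg b Φ A i R) ≤ ln b i := by
  have := ENNReal.toReal_mono ENNReal.ofReal_ne_top (seg_le b Φ A i R)
  rwa [ENNReal.toReal_ofReal (ln_pos b i).le] at this

variable {b Φ} {S : Set (Set E3)} (h : IsTiling b S Φ)
include h

lemma IsTiling.seg_sub {A : Set E3} (hA : A ∈ S) (i : Fin 6) (R : ℝ) : seg b Φ A i R ⊆ A := by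
  rintro x ⟨⟨z, hz, rfl⟩, _⟩
  rw [h.eq A hA]
  exact ⟨z, hz.1, by rw [← h.eq A hA]⟩

lemma IsTiling.seg_full {A : Set E3} (hA : A ∈ S) (i : Fin 6) {R : ℝ}
    (hAR : A ⊆ ball (0 : E3) R) : (μH[1] : Measure E3).real (seg b Φ A i R) = ln b i := by
  have e : seg b Φ A i R = Φ A '' Eo b i := by
    apply inter_eq_self_of_subset_left
    rintro x ⟨z, hz, rfl⟩
    apply hAR
    rw [h.eq A hA]
    exact ⟨z, hz.1, by rw [← h.eq A hA]⟩
  unfold Measure.real
  rw [e, H1_img, ENNReal.toReal_ofReal (ln_pos b i).le]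

lemma IsTiling.pt {y : Fin 6 → ℝ} (hy : ∀ n ∈ types b, 0 ≤ ∑ i, y i * n i) (R : ℝ) {x : E3}
    (hx : x ∉ ⋃ A ∈ h.tiles R, Φ A '' range b) :
    0 ≤ ∑ A ∈ h.tiles R, ∑ i, y i * (seg b Φ A i R).indicator (fun _ => (1 : ℝ)) x := by
  classical
  by_cases hxR : x ∈ ball (0 : E3) R
  · let F := (h.tiles R).filter fun A => x ∈ A
    have hF : ∀ A, A ∈ F ↔ A ∈ S ∧ x ∈ A := by
      intro A
      simp only [F, Finset.mem_filter, h.mem_tiles]
      exact ⟨fun hh => ⟨hh.1.1, hh.2⟩, fun hh => ⟨⟨hh.1, x, hh.2, hxR⟩, hh.2⟩⟩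
    have e1 : ∑ A ∈ F, ∑ i, y i * (seg b Φ A i R).indicator (fun _ => (1 : ℝ)) x =
        ∑ A ∈ h.tiles R, ∑ i, y i * (seg b Φ A i R).indicator (fun _ => (1 : ℝ)) x := by
      apply Finset.sum_subset (Finset.filter_subset _ _)
      intro A hA hAF
      have hAS := (h.mem_tiles.1 hA).1
      apply Finset.sum_eq_zero
      intro i _
      rw [indicator_of_notMem, mul_zero]
      intro hc
      exact hAF ((hF A).2 ⟨hAS, h.seg_sub hAS i R hc⟩)
    have e2 : ∑ A ∈ F, ∑ i, y i * (seg b Φ A i R).indicator (fun _ => (1 : ℝ)) x =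
        ∑ A ∈ F, ∑ i, y i * (if zs b ((Φ A).symm x) = fc i then (1 : ℝ) else 0) := by
      refine Finset.sum_congr rfl fun A hA => Finset.sum_congr rfl fun i _ => ?_
      obtain ⟨hAS, hxA⟩ := (hF A).1 hA
      congr 1
      have hiff : x ∈ seg b Φ A i R ↔ zs b ((Φ A).symm x) = fc i := by
        constructor
        · rintro ⟨⟨z, hz, rfl⟩, _⟩
          rw [IsometryEquiv.symm_apply_apply]; exact hz.2
        · intro hz
          rw [h.eq A hAS] at hxA
          obtain ⟨z, hzh, hzx⟩ := hxA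
          refine ⟨⟨z, ⟨hzh, ?_⟩, hzx⟩, hxR⟩
          rw [← hzx, IsometryEquiv.symm_apply_apply] at hz
          exact hz
      by_cases hh : zs b ((Φ A).symm x) = fc i
      · rw [if_pos hh, indicator_of_mem (hiff.2 hh)]
      · rw [if_neg hh, indicator_of_notMem fun hc => hh (hiff.1 hc)]
    rw [← e1, e2]
    refine type_nonneg F (fun A => zs b ((Φ A).symm x)) ?_ (h.local_sum hF) hy
    intro A hA
    refine zs_card b fun c hc => hx ?_
    simp only [mem_iUnion, exists_prop]
    refine ⟨A, (Finset.mem_filter.1 hA).1, b c, mem_range_self c, ?_⟩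
    rw [← hc, IsometryEquiv.apply_symm_apply]
  · have : ∑ A ∈ h.tiles R, ∑ i, y i * (seg b Φ A i R).indicator (fun _ => (1 : ℝ)) x = 0 := by
      refine Finset.sum_eq_zero fun A _ => Finset.sum_eq_zero fun i _ => ?_
      rw [indicator_of_notMem, mul_zero]
      exact fun hc => hxR hc.2
    rw [this]

lemma IsTiling.integral_nonneg {y : Fin 6 → ℝ} (hy : ∀ n ∈ types b, 0 ≤ ∑ i, y i * n i) (R : ℝ) :
    0 ≤ ∑ A ∈ h.tiles R, ∑ i, y i * (μH[1] : Measure E3).real (seg b Φ A i R) := by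
  have hI : ∀ (A : Set E3) (i : Fin 6), Integrable
      ((seg b Φ A i R).indicator (fun _ => (1 : ℝ))) (μH[1] : Measure E3) := by
    intro A i
    rw [integrable_indicator_iff (seg_meas b Φ A i R)]
    exact integrableOn_const (seg_lt b Φ A i R).ne
  have e : ∫ x, ∑ A ∈ h.tiles R, ∑ i, y i * (seg b Φ A i R).indicator (fun _ => (1 : ℝ)) x
      ∂(μH[1] : Measure E3) =
      ∑ A ∈ h.tiles R, ∑ i, y i * (μH[1] : Measure E3).real (seg b Φ A i R) := by
    rw [integral_finsetSum _ fun A _ => integrable_finsetSum _ fun i _ => (hI A i).const_mul (y i)]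
    refine Finset.sum_congr rfl fun A _ => ?_
    rw [integral_finsetSum _ fun i _ => (hI A i).const_mul (y i)]
    refine Finset.sum_congr rfl fun i _ => ?_
    rw [integral_const_mul]
    congr 1
    have := integral_indicator_one (μ := (μH[1] : Measure E3)) (seg_meas b Φ A i R)
    exact this
  rw [← e]
  apply integral_nonneg_of_ae
  have hfin : (⋃ A ∈ h.tiles R, Φ A '' range b).Finite := by
    apply Set.Finite.biUnion (h.tiles R).finite_toSet
    intro A _
    exact (finite_range b).image _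
  have hz : (μH[1] : Measure E3) (⋃ A ∈ h.tiles R, Φ A '' range b) = 0 := hfin.measure_zero _
  rw [Filter.EventuallyLE, ae_iff]
  refine measure_mono_null ?_ hz
  intro x hx
  by_contra hc
  exact hx (h.pt hy R hc)

/-- the cone inequality -/
theorem IsTiling.cone_ineq {y : Fin 6 → ℝ} (hy : ∀ n ∈ types b, 0 ≤ ∑ i, y i * n i) :
    0 ≤ ∑ i, y i * ln b i := by
  classical
  obtain ⟨D, hD0, hD⟩ := exists_D b
  by_contra hneg
  push Not at hneg
  set δ := - ∑ i, y i * ln b i with hδ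
  have hδ0 : 0 < δ := by rw [hδ]; linarith
  set C := ∑ i, |y i| * ln b i with hC
  have hC0 : 0 ≤ C := Finset.sum_nonneg fun i _ => mul_nonneg (abs_nonneg _) (ln_pos b i).le
  -- choose the radius
  obtain ⟨R, hRD, hR⟩ : ∃ R, D < R ∧ 8 * D * (C + δ) / δ < R :=
    ⟨max D (8 * D * (C + δ) / δ) + 1, by
      have := le_max_left D (8 * D * (C + δ) / δ); linarith, by
      have := le_max_right D (8 * D * (C + δ) / δ); linarith⟩
  have hR0 : 0 < R := hD0.trans hRD
  let I := h.tiles R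
  let G := I.filter fun A => A ⊆ ball (0 : E3) R
  let B := I.filter fun A => ¬ A ⊆ ball (0 : E3) R
  have h0 := h.integral_nonneg hy R
  have hsplit : ∑ A ∈ I, ∑ i, y i * (μH[1] : Measure E3).real (seg b Φ A i R) =
      ∑ A ∈ G, ∑ i, y i * (μH[1] : Measure E3).real (seg b Φ A i R) +
      ∑ A ∈ B, ∑ i, y i * (μH[1] : Measure E3).real (seg b Φ A i R) :=
    (Finset.sum_filter_add_sum_filter_not _ _ _).symm
  have hG : ∑ A ∈ G, ∑ i, y i * (μH[1] : Measure E3).real (seg b Φ A i R) = G.card * (-δ) := by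
    rw [Finset.sum_congr rfl (g := fun _ => -δ), Finset.sum_const, nsmul_eq_mul]
    intro A hA
    obtain ⟨hAI, hAR⟩ := Finset.mem_filter.1 hA
    rw [hδ, neg_neg]
    exact Finset.sum_congr rfl fun i _ => by rw [h.seg_full (h.mem_tiles.1 hAI).1 i hAR]
  have hB : ∑ A ∈ B, ∑ i, y i * (μH[1] : Measure E3).real (seg b Φ A i R) ≤ B.card * C := by
    rw [← nsmul_eq_mul]
    refine Finset.sum_le_card_nsmul _ _ _ fun A _ => ?_
    refine Finset.sum_le_sum fun i _ => ?_
    have h1 := seg_real_le b Φ A i R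
    have h2 : 0 ≤ (μH[1] : Measure E3).real (seg b Φ A i R) := measureReal_nonneg
    calc y i * (μH[1] : Measure E3).real (seg b Φ A i R)
        ≤ |y i| * (μH[1] : Measure E3).real (seg b Φ A i R) :=
          mul_le_mul_of_nonneg_right (le_abs_self _) h2
      _ ≤ |y i| * ln b i := mul_le_mul_of_nonneg_left h1 (abs_nonneg _)
  have hcard : (I.card : ℝ) = G.card + B.card := by
    have := Finset.card_filter_add_card_filter_not (s := I) (fun A => A ⊆ ball (0 : E3) R)
    rw [← this]; push_cast; rfl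
  have hmain : (I.card : ℝ) * δ ≤ B.card * (C + δ) := by
    have : 0 ≤ (G.card : ℝ) * (-δ) + B.card * C := by
      have h0' : 0 ≤ ∑ A ∈ I, ∑ i, y i * (μH[1] : Measure E3).real (seg b Φ A i R) := h0
      rw [hsplit, hG] at h0'
      linarith
    rw [hcard]
    nlinarith
  -- volumes
  set V := vr (hull b) with hV
  have hV0 : 0 < V := V_pos b
  set w := vr (ball (0 : E3) 1) with hw
  have hw0 : 0 < w := vr_ball_pos _ one_pos
  have hI1 : R ^ 3 * w ≤ I.card * V := by
    rw [← ball_scale hR0]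
    apply h.le_count (fun A hA => (h.mem_tiles.1 hA).1)
    intro x hx
    obtain ⟨A, hA, hxA⟩ := h.cover x
    simp only [mem_iUnion, exists_prop]
    exact ⟨A, h.mem_tiles.2 ⟨hA, x, hxA, hx⟩, hxA⟩
  have hB1 : B.card * V ≤ ((R + D) ^ 3 - (R - D) ^ 3) * w := by
    have hsub : ball (0 : E3) (R - D) ⊆ ball (0 : E3) (R + D) :=
      ball_subset_ball (by linarith)
    have hvr : vr (ball (0 : E3) (R + D) \ ball (0 : E3) (R - D)) =
        ((R + D) ^ 3 - (R - D) ^ 3) * w := by
      have := measure_sdiff (μ := vol) hsub measurableSet_ball.nullMeasurableSet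
        measure_ball_lt_top.ne
      unfold vr
      rw [this, ENNReal.toReal_sub_of_le (measure_mono hsub) measure_ball_lt_top.ne]
      have e1 := ball_scale (r := R + D) (by linarith)
      have e2 := ball_scale (r := R - D) (by linarith)
      unfold vr at e1 e2
      rw [e1, e2, hw]; unfold vr; ring
    rw [← hvr]
    refine h.count_le (fun A hA => (h.mem_tiles.1 (Finset.mem_filter.1 hA).1).1) ?_
      ((measure_mono sdiff_subset).trans_lt measure_ball_lt_top).ne
    intro A hA z hz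
    obtain ⟨hAI, hAR⟩ := Finset.mem_filter.1 hA
    obtain ⟨hAS, p, hpA, hpR⟩ := h.mem_tiles.1 hAI
    obtain ⟨q, hqA, hqR⟩ := Set.not_subset.1 hAR
    have d1 := h.dist_le hD hAS hz hpA
    have d2 := h.dist_le hD hAS hqA hz
    rw [mem_ball] at hpR hqR
    refine ⟨?_, ?_⟩
    · rw [mem_ball]; linarith [dist_triangle z p 0]
    · rw [mem_ball]; push Not at hqR ⊢; linarith [dist_triangle q z 0]
  -- the contradiction
  have hcub : (R + D) ^ 3 - (R - D) ^ 3 ≤ 8 * D * R ^ 2 := by
    have hk : 0 < D * ((R - D) * (R + D)) :=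
      mul_pos hD0 (mul_pos (by linarith) (by linarith))
    nlinarith [hk]
  rw [div_lt_iff₀ hδ0] at hR
  have hCδ : 0 < C + δ := by linarith
  have s1 : R ^ 3 * w * δ ≤ I.card * V * δ := mul_le_mul_of_nonneg_right hI1 hδ0.le
  have s2 : (I.card : ℝ) * V * δ ≤ B.card * V * (C + δ) := by nlinarith
  have s3 : (B.card : ℝ) * V * (C + δ) ≤ ((R + D) ^ 3 - (R - D) ^ 3) * w * (C + δ) :=
    mul_le_mul_of_nonneg_right hB1 hCδ.le
  have s4 : ((R + D) ^ 3 - (R - D) ^ 3) * w * (C + δ) ≤ 8 * D * R ^ 2 * w * (C + δ) :=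
    mul_le_mul_of_nonneg_right (mul_le_mul_of_nonneg_right hcub hw0.le) hCδ.le
  have s5 : 8 * D * R ^ 2 * w * (C + δ) < R ^ 3 * w * δ := by
    have : 0 < R ^ 2 * w := by positivity
    nlinarith [mul_lt_mul_of_pos_left hR this]
  linarith

end Pool.Agent.TetRel
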