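import Pool.Agent.TetRel.SixtyM
import Pool.Agent.TetRel.Limit
import Pool.Agent.TetRel.Bridge

/-! # Every tetrahedron that tiles space has a dihedral angle of at most sixty degrees (helper46) -/

set_option autoImplicit false

open Real Set InnerProductGeometry
open scoped InnerProductSpace

namespace Pool.Agent.TetRel

variable (b : AffineBasis (Fin 4) ℝ E3)

lemma u_ne (i : Fin 6) : b (eb i) - b (ea i) ≠ 0 :=
  sub_ne_zero.2 fun h => ea_ne_eb i (b.ind.injective h.symm)

lemma perp_ne (i : Fin 6) : perp (b (eb i) - b (ea i)) (b (ec i) - b (ea i)) ≠ 0 ∧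
    perp (b (eb i) - b (ea i)) (b (ed i) - b (ea i)) ≠ 0 := by
  have hl := Fintype.linearIndependent_iff.1 (li b i)
  constructor
  · intro h0
    have h := hl ![-(inner ℝ (b (eb i) - b (ea i)) (b (ec i) - b (ea i)) /
      inner ℝ (b (eb i) - b (ea i)) (b (eb i) - b (ea i))), 1, 0] (by
        rw [Fin.sum_univ_three]
        simp only [Matrix.cons_val_zero, Matrix.cons_val_one, Matrix.cons_val]
        unfold perp at h0
        rw [← h0]
        module) 1
    simp at h
  · intro h0
    have h := hl ![-(inner ℝ (b (eb i) - b (ea i)) (b (ed i) - b (ea i)) /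
      inner ℝ (b (eb i) - b (ea i)) (b (eb i) - b (ea i))), 0, 1] (by
        rw [Fin.sum_univ_three]
        simp only [Matrix.cons_val_zero, Matrix.cons_val_one, Matrix.cons_val]
        unfold perp at h0
        rw [← h0]
        module) 2
    simp at h

/-- twice the area of the face opposite to the vertex `c` -/
noncomputable def fa (c : Fin 4) : ℝ := √(ar2 b c)

lemma ln_sq (i : Fin 6) : ln b i ^ 2 = uu b i := by
  unfold ln uu
  rw [dist_comm, dist_eq_norm, real_inner_self_eq_norm_sq]

/-- the product of the two face areas, the length and the angle -/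
lemma edge_facts_gram (i : Fin 6) :
    0 < fa b (ec i) ∧ 0 < fa b (ed i) ∧ fa b (ec i) ^ 2 = ar2 b (ec i) ∧
    fa b (ed i) ^ 2 = ar2 b (ed i) ∧
    fa b (ec i) * fa b (ed i) * cos (dih b i) = uu b i * pq b i - up b i * uq b i ∧
    fa b (ec i) * fa b (ed i) * sin (dih b i) = ln b i * √(dg b) := by
  set u := b (eb i) - b (ea i) with hu
  set p := b (ec i) - b (ea i) with hp
  set q := b (ed i) - b (ea i) with hq
  have hu0 : u ≠ 0 := u_ne b i
  have hL := ln_pos b i
  have hLu : ln b i ^ 2 = ⟪u, u⟫_ℝ := ln_sq b i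
  obtain ⟨hp0, hq0⟩ := perp_ne b i
  rw [← hu, ← hp] at hp0
  rw [← hu, ← hq] at hq0
  have hnp : 0 < ‖perp u p‖ := norm_pos_iff.2 hp0
  have hnq : 0 < ‖perp u q‖ := norm_pos_iff.2 hq0
  have i1 := inner_perp hu0 p p
  have i2 := inner_perp hu0 q q
  have i3 := inner_perp hu0 p q
  rw [← hLu, real_inner_self_eq_norm_sq] at i1 i2
  rw [← hLu] at i3
  have fd : ar2 b (ed i) = (ln b i * ‖perp u p‖) ^ 2 := by
    rw [← face_d b i, mul_pow, i1, hLu]
    unfold uu pp up
    rw [real_inner_self_eq_norm_sq p]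
    ring
  have fc' : ar2 b (ec i) = (ln b i * ‖perp u q‖) ^ 2 := by
    rw [← face_c b i, mul_pow, i2, hLu]
    unfold uu qq uq
    rw [real_inner_self_eq_norm_sq q]
    ring
  have ed' : fa b (ed i) = ln b i * ‖perp u p‖ := by
    unfold fa
    rw [fd, sqrt_sq (by positivity)]
  have ec' : fa b (ec i) = ln b i * ‖perp u q‖ := by
    unfold fa
    rw [fc', sqrt_sq (by positivity)]
  have hcos := cos_angle_mul_norm_mul_norm (perp u p) (perp u q)
  have hdih : dih b i = angle (perp u p) (perp u q) := rfl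
  refine ⟨by rw [ec']; positivity, by rw [ed']; positivity, by rw [ec', fc'], by rw [ed', fd],
    ?_, ?_⟩
  · rw [ec', ed', hdih]
    have e1 : ln b i * ‖perp u q‖ * (ln b i * ‖perp u p‖) * cos (angle (perp u p) (perp u q)) =
        ln b i ^ 2 * (cos (angle (perp u p) (perp u q)) * (‖perp u p‖ * ‖perp u q‖)) := by ring
    rw [e1, hcos, i3, hLu]
    rfl
  · rw [ec', ed', hdih]
    have hsin0 : 0 ≤ sin (angle (perp u p) (perp u q)) := sin_angle_nonneg _ _
    have hdet := det_eq b i
    rw [face_d b i, face_c b i, fd, fc'] at hdet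
    have e3 : uu b i * pq b i - up b i * uq b i =
        ln b i ^ 2 * (cos (angle (perp u p) (perp u q)) * (‖perp u p‖ * ‖perp u q‖)) := by
      rw [hcos, i3, hLu]; rfl
    rw [e3, ← ln_sq b i] at hdet
    have hsc := sin_sq_add_cos_sq (angle (perp u p) (perp u q))
    have hsq : (ln b i * ‖perp u q‖ * (ln b i * ‖perp u p‖) * sin (angle (perp u p) (perp u q))) ^ 2
        = ln b i ^ 2 * dg b := by
      rw [← hdet]
      have : sin (angle (perp u p) (perp u q)) ^ 2 = 1 - cos (angle (perp u p) (perp u q)) ^ 2 := by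
        linarith
      rw [mul_pow, this]
      ring
    have hnn : 0 ≤ ln b i * ‖perp u q‖ * (ln b i * ‖perp u p‖) *
        sin (angle (perp u p) (perp u q)) := by positivity
    rw [← sqrt_sq hnn, hsq, sqrt_mul (by positivity), sqrt_sq hL.le]

/-- For every tetrahedron all of whose dihedral angles are at least sixty degrees, the mean of the
dihedral angles, weighted by the lengths of the edges, is less than seventy-two degrees. -/
theorem sum_dih_neg (h : ∀ i, π / 3 ≤ dih b i) :
    ∑ i, (dih b i - 2 * π / 5) * ln b i < 0 := by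
  have hD : 0 ≤ √(dg b) := sqrt_nonneg _
  have key : (∑ i, (dih b i - 2 * π / 5) * ln b i) * √(dg b) < 0 := by
    have e1 : (∑ i, (dih b i - 2 * π / 5) * ln b i) * √(dg b) =
        ∑ i, (fa b (ec i) * fa b (ed i) * gg (dih b i) + fa b (ec i) * fa b (ed i) / 3
          - (uu b i * pq b i - up b i * uq b i)) := by
      rw [Finset.sum_mul]
      refine Finset.sum_congr rfl fun i _ => ?_
      obtain ⟨-, -, -, -, h5, h6⟩ := edge_facts_gram b i
      rw [← h5, mul_assoc, ← h6]
      unfold gg
      ring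
    rw [e1, Finset.sum_sub_distrib, Finset.sum_add_distrib, sum_cos_gram]
    have e2 : ∑ i, fa b (ec i) * fa b (ed i) * gg (dih b i) < 0 := by
      apply Finset.sum_neg
      · intro i _
        obtain ⟨h1, h2, -⟩ := edge_facts_gram b i
        exact mul_neg_of_pos_of_neg (mul_pos h1 h2) (gg_neg (h i) (angle_le_pi _ _))
      · exact Finset.univ_nonempty
    have e3 : ∑ i : Fin 6, fa b (ec i) * fa b (ed i) / 3 =
        (fa b 2 * fa b 3 + fa b 1 * fa b 3 + fa b 1 * fa b 2 + fa b 0 * fa b 3 + fa b 0 * fa b 2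
          + fa b 0 * fa b 1) / 3 := by
      simp only [Fin.sum_univ_succ, Fin.sum_univ_zero]
      simp [ec, ed]
      ring
    have hfa : ∀ c, ar2 b c = fa b c ^ 2 := by
      intro c
      have h0 : ∃ i, c = ec i ∨ c = ed i := by fin_cases c <;> decide
      obtain ⟨i, hi | hi⟩ := h0
      · rw [hi]; exact (edge_facts_gram b i).2.2.1.symm
      · rw [hi]; exact (edge_facts_gram b i).2.2.2.1.symm
    have e4 : ∑ c, ar2 b c = fa b 0 ^ 2 + fa b 1 ^ 2 + fa b 2 ^ 2 + fa b 3 ^ 2 := by
      rw [Fin.sum_univ_four, hfa, hfa, hfa, hfa]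
    rw [e3, e4]
    nlinarith [sq_nonneg (fa b 0 - fa b 1), sq_nonneg (fa b 0 - fa b 2),
      sq_nonneg (fa b 0 - fa b 3), sq_nonneg (fa b 1 - fa b 2), sq_nonneg (fa b 1 - fa b 3),
      sq_nonneg (fa b 2 - fa b 3)]
  by_contra hcon
  push Not at hcon
  exact absurd (mul_nonneg hcon hD) (not_le.2 key)

variable {b}
variable {S : Set (Set E3)} {Φ : Set E3 → (E3 ≃ᵢ E3)}

/-- Every tetrahedron that tiles space has a dihedral angle of at most sixty degrees. -/
theorem IsTiling.exists_dih_le (h : IsTiling b S Φ) : ∃ i, dih b i ≤ π / 3 := by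
  by_contra hcon
  push Not at hcon
  have hpi := pi_pos
  have hom : ∀ i, 1 / 6 < om b i := by
    intro i
    rw [om_eq, lt_div_iff₀ (by positivity)]
    have := hcon i
    linarith
  have hc := h.cone_ineq (y := fun i => om b i - 1 / 5) (by
    intro n hn
    have hn1 : ∑ i, (n i : ℝ) * om b i = 1 := hn
    have hle : ∑ i, n i ≤ 5 := by
      by_contra hgt
      push Not at hgt
      have h6 : (6 : ℝ) ≤ ∑ i, (n i : ℝ) := by exact_mod_cast hgt
      have hlt : (∑ i, (n i : ℝ)) * (1 / 6) < ∑ i, (n i : ℝ) * om b i := by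
        rw [Finset.sum_mul]
        obtain ⟨j, hj⟩ : ∃ j, n j ≠ 0 := by
          by_contra hz
          push Not at hz
          simp [hz] at h6
          linarith
        refine Finset.sum_lt_sum (fun i _ => ?_) ⟨j, Finset.mem_univ j, ?_⟩
        · exact mul_le_mul_of_nonneg_left (hom i).le (Nat.cast_nonneg _)
        · exact mul_lt_mul_of_pos_left (hom j) (by exact_mod_cast Nat.pos_of_ne_zero hj)
      linarith
    have h5 : ∑ i, (n i : ℝ) ≤ 5 := by exact_mod_cast hle
    have e : ∑ i, (om b i - 1 / 5) * (n i : ℝ) =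
        ∑ i, (n i : ℝ) * om b i - (∑ i, (n i : ℝ)) / 5 := by
      rw [Finset.sum_div, ← Finset.sum_sub_distrib]
      exact Finset.sum_congr rfl fun i _ => by ring
    rw [e, hn1]
    linarith)
  have hneg := sum_dih_neg b fun i => (hcon i).le
  have e : ∑ i, (dih b i - 2 * π / 5) * ln b i = 2 * π * ∑ i, (om b i - 1 / 5) * ln b i := by
    rw [Finset.mul_sum]
    refine Finset.sum_congr rfl fun i _ => ?_
    rw [om_eq]
    field_simp
  rw [e] at hneg
  have : 0 ≤ 2 * π * ∑ i, (om b i - 1 / 5) * ln b i := by positivity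
  linarith

end Pool.Agent.TetRel
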