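import Pool.Agent.TetRel.Sommer

/-! # The dihedral angles of Sommerville's disphenoid (helper97) -/

set_option autoImplicit false

open Set

namespace Pool.Agent.TetRel.Sommer

/-- The standard Sommerville disphenoid. -/
def v0 : Fin 4 → E3 := q 1

theorem isSomm_v0 : IsSomm 1 v0 := by
  have h3 : ∀ x y : E3, (x 0 - y 0) ^ 2 + (x 1 - y 1) ^ 2 + (x 2 - y 2) ^ 2 = 3 →
      dist x y = √3 * 1 := by
    intro x y h
    rw [EuclideanSpace.dist_eq, Fin.sum_univ_three, mul_one]
    simp only [Real.dist_eq, sq_abs]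
    rw [h]
  have h4 : ∀ x y : E3, (x 0 - y 0) ^ 2 + (x 1 - y 1) ^ 2 + (x 2 - y 2) ^ 2 = 2 ^ 2 →
      dist x y = 2 * 1 := by
    intro x y h
    rw [EuclideanSpace.dist_eq, Fin.sum_univ_three, mul_one]
    simp only [Real.dist_eq, sq_abs]
    rw [h, Real.sqrt_sq (by norm_num)]
  refine ⟨one_pos, ?_, ?_, ?_, ?_, ?_, ?_⟩
  · apply h4; simp [v0, q]
  · apply h4; simp [v0, q]; norm_num
  · apply h3; simp [v0, q]; norm_num
  · apply h3; simp [v0, q]; norm_num
  · apply h3; simp [v0, q]; norm_num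
  · apply h3; simp [v0, q]; norm_num

/-- Sommerville's disphenoid tiles. -/
theorem tiles_v0 : Tiles v0 := by
  obtain ⟨S, h1, h2, h3, -⟩ := periodic isSomm_v0
  exact ⟨S, h1, h2, h3⟩

theorem affineIndependent_v0 : AffineIndependent ℝ v0 := by
  rw [affineIndependent_iff_linearIndependent_vsub ℝ _ (0 : Fin 4), Fintype.linearIndependent_iff]
  intro g hg
  have hs : ∑ i : {x : Fin 4 // x ≠ 0}, g i • (v0 i -ᵥ v0 0 : E3) =
      g ⟨1, by decide⟩ • (v0 1 - v0 0) + g ⟨2, by decide⟩ • (v0 2 - v0 0) +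
        g ⟨3, by decide⟩ • (v0 3 - v0 0) := by
    have hu : (Finset.univ : Finset {x : Fin 4 // x ≠ 0}) =
        {⟨1, by decide⟩, ⟨2, by decide⟩, ⟨3, by decide⟩} := by decide
    rw [hu, Finset.sum_insert (by decide), Finset.sum_insert (by decide), Finset.sum_singleton]
    simp only [vsub_eq_sub, add_assoc]
  rw [hs] at hg
  have c0 := congrArg (fun x : E3 => x 0) hg
  have c1 := congrArg (fun x : E3 => x 1) hg
  have c2 := congrArg (fun x : E3 => x 2) hg
  simp [v0, q] at c0 c1 c2
  rintro ⟨i, hi⟩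
  fin_cases i
  · exact absurd rfl hi
  · change g ⟨1, _⟩ = 0; linarith
  · change g ⟨2, _⟩ = 0; linarith
  · change g ⟨3, _⟩ = 0; linarith

theorem inner3 (x y : E3) : inner ℝ x y = x 0 * y 0 + x 1 * y 1 + x 2 * y 2 := by
  simp [PiLp.inner_apply, Fin.sum_univ_three]; ring

theorem ang_third {x y : E3} (a : ℝ) (ha : 0 < a) (hx : inner ℝ x x = a) (hy : inner ℝ y y = a)
    (hxy : inner ℝ x y = a / 2) : InnerProductGeometry.angle x y = Real.pi / 3 := by
  have nx : ‖x‖ = √a := by
    rw [← hx, real_inner_self_eq_norm_sq, Real.sqrt_sq (norm_nonneg _)]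
  have ny : ‖y‖ = √a := by
    rw [← hy, real_inner_self_eq_norm_sq, Real.sqrt_sq (norm_nonneg _)]
  rw [InnerProductGeometry.angle, nx, ny, Real.mul_self_sqrt ha.le, hxy]
  have e : a / 2 / a = Real.cos (Real.pi / 3) := by
    rw [Real.cos_pi_div_three]; field_simp
  rw [e, Real.arccos_cos (by positivity) (by linarith [Real.pi_pos])]

/-- The dihedral angles: right angles at the edges `02` and `13`, `π / 3` at the others. -/
theorem dih_v0 (i : Fin 6) : dih v0 i = if i = 1 ∨ i = 4 then Real.pi / 2 else Real.pi / 3 := by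
  fin_cases i
  · rw [if_neg (by decide)]
    apply ang_third (8 / 3) (by norm_num) <;> simp only [perp, inner3] <;>
      simp [v0, q, ea, eb, ec, ed] <;> norm_num
  · rw [if_pos (by decide)]
    apply InnerProductGeometry.inner_eq_zero_iff_angle_eq_pi_div_two _ _ |>.1
    simp only [perp, inner3]
    simp [v0, q, ea, eb, ec, ed]
  · rw [if_neg (by decide)]
    apply ang_third (8 / 3) (by norm_num) <;> simp only [perp, inner3] <;>
      simp [v0, q, ea, eb, ec, ed] <;> norm_num
  · rw [if_neg (by decide)]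
    apply ang_third (8 / 3) (by norm_num) <;> simp only [perp, inner3] <;>
      simp [v0, q, ea, eb, ec, ed] <;> norm_num
  · rw [if_pos (by decide)]
    apply InnerProductGeometry.inner_eq_zero_iff_angle_eq_pi_div_two _ _ |>.1
    simp only [perp, inner3]
    simp [v0, q, ea, eb, ec, ed]
    norm_num
  · rw [if_neg (by decide)]
    apply ang_third (8 / 3) (by norm_num) <;> simp only [perp, inner3] <;>
      simp [v0, q, ea, eb, ec, ed] <;> norm_num

/-- All dihedral angles are at least `π / 3`. -/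
theorem le_dih_v0 (i : Fin 6) : Real.pi / 3 ≤ dih v0 i := by
  rw [dih_v0]
  split_ifs
  · linarith [Real.pi_pos]
  · exact le_rfl

end Pool.Agent.TetRel.Sommer
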