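import Pool.Agent.TetRel.Areas

/-! # Areas and dihedral angles of a tetrahedron (helper97)

The lengths, the areas and the dihedral angles of a tetrahedron given by four affinely
independent points; the three dihedral angles at a vertex have sum greater than `π`. -/

set_option autoImplicit false

open Module Real Set
open scoped InnerProductSpace

namespace Pool.Agent.TetRel

section Basis
variable (b : AffineBasis (Fin 4) ℝ E3)

lemma dih_pos_lt (i : Fin 6) : 0 < dih b i ∧ dih b i < π := by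
  obtain ⟨-, -, -, h0, hπ⟩ := Pool.TetraTile.orth_facts (li b i)
  exact ⟨h0, hπ⟩

/-- The four projection formulas. -/
lemma proj_facts :
    ‖wv b 0‖ = ‖wv b 1‖ * cos (dih b 5) + ‖wv b 2‖ * cos (dih b 4) + ‖wv b 3‖ * cos (dih b 3) ∧
    ‖wv b 1‖ = ‖wv b 0‖ * cos (dih b 5) + ‖wv b 2‖ * cos (dih b 2) + ‖wv b 3‖ * cos (dih b 1) ∧
    ‖wv b 2‖ = ‖wv b 0‖ * cos (dih b 4) + ‖wv b 1‖ * cos (dih b 2) + ‖wv b 3‖ * cos (dih b 0) ∧
    ‖wv b 3‖ = ‖wv b 0‖ * cos (dih b 3) + ‖wv b 1‖ * cos (dih b 1) +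
      ‖wv b 2‖ * cos (dih b 0) := by
  have key : ∀ c : Fin 4, ⟪wv b c, wv b 0⟫_ℝ + ⟪wv b c, wv b 1⟫_ℝ + ⟪wv b c, wv b 2⟫_ℝ +
      ⟪wv b c, wv b 3⟫_ℝ = 0 := by
    intro c
    have h1 : ⟪wv b c, ∑ d, wv b d⟫_ℝ = 0 := by rw [sum_wv]; simp
    rw [Fin.sum_univ_four] at h1
    simpa only [inner_add_right] using h1
  have hc : ∀ c d : Fin 4, ⟪wv b d, wv b c⟫_ℝ = ⟪wv b c, wv b d⟫_ℝ := fun c d => real_inner_comm _ _
  have hn : ∀ c, 0 < ‖wv b c‖ := fun c => norm_pos_iff.2 (wv_ne b c)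
  have hs : ∀ c, ⟪wv b c, wv b c⟫_ℝ = ‖wv b c‖ * ‖wv b c‖ := fun c => by
    rw [real_inner_self_eq_norm_sq, sq]
  have e0 := (edge_facts b 0).1
  have e1 := (edge_facts b 1).1
  have e2 := (edge_facts b 2).1
  have e3 := (edge_facts b 3).1
  have e4 := (edge_facts b 4).1
  have e5 := (edge_facts b 5).1
  simp only [ec, ed, Fin.isValue, Matrix.cons_val, Matrix.cons_val_zero, Matrix.cons_val_one]
    at e0 e1 e2 e3 e4 e5
  have k0 := key 0
  have k1 := key 1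
  have k2 := key 2
  have k3 := key 3
  rw [hs, e5, e4, e3] at k0
  rw [hc 0 1, hs, e5, e2, e1] at k1
  rw [hc 0 2, hc 1 2, hs, e4, e2, e0] at k2
  rw [hc 0 3, hc 1 3, hc 2 3, hs, e3, e1, e0] at k3
  refine ⟨?_, ?_, ?_, ?_⟩
  · apply mul_left_cancel₀ (hn 0).ne'; linarith
  · apply mul_left_cancel₀ (hn 1).ne'; linarith
  · apply mul_left_cancel₀ (hn 2).ne'; linarith
  · apply mul_left_cancel₀ (hn 3).ne'; linarith

/-- Three vectors with a vector seeing only one of them. -/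
lemma three_angles {x y z t : E3} {α β γ : ℝ} (hxt : ⟪x, t⟫_ℝ ≠ 0) (hyt : ⟪y, t⟫_ℝ = 0)
    (hzt : ⟪z, t⟫_ℝ = 0) (hx : x ≠ 0) (hy : y ≠ 0) (hz : z ≠ 0)
    (hyz : ⟪y, z⟫_ℝ = -(‖y‖ * ‖z‖ * cos α)) (hxz : ⟪x, z⟫_ℝ = -(‖x‖ * ‖z‖ * cos β))
    (hxy : ⟪x, y⟫_ℝ = -(‖x‖ * ‖y‖ * cos γ)) (hα : 0 < α ∧ α < π) (hβ : 0 < β ∧ β < π)
    (hγ : 0 < γ ∧ γ < π) : π < α + β + γ := by
  by_contra hcon
  push Not at hcon
  have sα : 0 < sin α := sin_pos_of_pos_of_lt_pi hα.1 hα.2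
  have sβ : 0 < sin β := sin_pos_of_pos_of_lt_pi hβ.1 hβ.2
  have nx : ‖x‖ ≠ 0 := norm_ne_zero_iff.2 hx
  have ny : ‖y‖ ≠ 0 := norm_ne_zero_iff.2 hy
  have nz : ‖z‖ ≠ 0 := norm_ne_zero_iff.2 hz
  have hcos : -cos (α + β) ≤ cos γ := by
    rw [← cos_pi_sub]
    exact cos_le_cos_of_nonneg_of_le_pi hγ.1.le (by linarith [hα.1, hβ.1]) (by linarith)
  set X : E3 := (sin α / ‖x‖) • x + (sin β / ‖y‖) • y + (sin (α + β) / ‖z‖) • z with hX
  have hXt : ⟪X, t⟫_ℝ = sin α / ‖x‖ * ⟪x, t⟫_ℝ := by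
    rw [hX, inner_add_left, inner_add_left, real_inner_smul_left, real_inner_smul_left,
      real_inner_smul_left, hyt, hzt]
    ring
  have hX0 : X ≠ 0 := by
    intro h
    rw [h, inner_zero_left] at hXt
    exact mul_ne_zero (div_ne_zero sα.ne' nx) hxt hXt.symm
  have hpos : 0 < ⟪X, X⟫_ℝ := real_inner_self_pos.2 hX0
  have hyx : ⟪y, x⟫_ℝ = ⟪x, y⟫_ℝ := real_inner_comm _ _
  have hzx : ⟪z, x⟫_ℝ = ⟪x, z⟫_ℝ := real_inner_comm _ _
  have hzy : ⟪z, y⟫_ℝ = ⟪y, z⟫_ℝ := real_inner_comm _ _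
  have hval : ⟪X, X⟫_ℝ = sin α ^ 2 + sin β ^ 2 + sin (α + β) ^ 2 - 2 * sin α * sin β * cos γ -
      2 * sin α * sin (α + β) * cos β - 2 * sin β * sin (α + β) * cos α := by
    have sx : ⟪x, x⟫_ℝ = ‖x‖ ^ 2 := real_inner_self_eq_norm_sq x
    have sy : ⟪y, y⟫_ℝ = ‖y‖ ^ 2 := real_inner_self_eq_norm_sq y
    have sz : ⟪z, z⟫_ℝ = ‖z‖ ^ 2 := real_inner_self_eq_norm_sq z
    rw [hX]
    simp only [inner_add_left, inner_add_right, real_inner_smul_left, real_inner_smul_right,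
      hyx, hzx, hzy, hxy, hxz, hyz, sx, sy, sz]
    field_simp
    ring
  have hval2 : ⟪X, X⟫_ℝ = 2 * sin α * sin β * (-cos (α + β) - cos γ) := by
    rw [hval, sin_add, cos_add]
    have h1 := sin_sq_add_cos_sq α
    have h2 := sin_sq_add_cos_sq β
    have h3 : cos α ^ 2 = 1 - sin α ^ 2 := by linarith
    have h4 : cos β ^ 2 = 1 - sin β ^ 2 := by linarith
    ring_nf
    simp only [h3, h4]
    ring
  rw [hval2] at hpos
  have : 0 < 2 * sin α * sin β := by positivity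
  nlinarith

lemma lin_vertex (c i j : Fin 4) : lin b c (b i - b j) = (if c = i then 1 else 0) -
    (if c = j then 1 else 0) := by
  have h : lin b c (b i - b j) = b.coord c (b i) - b.coord c (b j) := by
    have := (b.coord c).linearMap_vsub (b i) (b j)
    simpa [lin] using this
  rw [h, b.coord_apply, b.coord_apply]

/-- At every vertex the three dihedral angles have sum greater than `π`. -/
lemma vertex_sums :
    π < dih b 0 + dih b 1 + dih b 2 ∧ π < dih b 0 + dih b 3 + dih b 4 ∧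
    π < dih b 1 + dih b 3 + dih b 5 ∧ π < dih b 2 + dih b 4 + dih b 5 := by
  have e0 := (edge_facts b 0).1
  have e1 := (edge_facts b 1).1
  have e2 := (edge_facts b 2).1
  have e3 := (edge_facts b 3).1
  have e4 := (edge_facts b 4).1
  have e5 := (edge_facts b 5).1
  simp only [ec, ed, Fin.isValue, Matrix.cons_val, Matrix.cons_val_zero, Matrix.cons_val_one]
    at e0 e1 e2 e3 e4 e5
  refine ⟨?_, ?_, ?_, ?_⟩
  · refine three_angles (x := wv b 1) (y := wv b 2) (z := wv b 3) (t := b 1 - b 0) ?_ ?_ ?_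
      (wv_ne b _) (wv_ne b _) (wv_ne b _) e0 e1 e2 (dih_pos_lt b _) (dih_pos_lt b _)
      (dih_pos_lt b _) <;> rw [inner_wv, lin_vertex] <;> simp
  · refine three_angles (x := wv b 0) (y := wv b 2) (z := wv b 3) (t := b 0 - b 1) ?_ ?_ ?_
      (wv_ne b _) (wv_ne b _) (wv_ne b _) e0 e3 e4 (dih_pos_lt b _) (dih_pos_lt b _)
      (dih_pos_lt b _) <;> rw [inner_wv, lin_vertex] <;> simp
  · refine three_angles (x := wv b 0) (y := wv b 1) (z := wv b 3) (t := b 0 - b 2) ?_ ?_ ?_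
      (wv_ne b _) (wv_ne b _) (wv_ne b _) e1 e3 e5 (dih_pos_lt b _) (dih_pos_lt b _)
      (dih_pos_lt b _) <;> rw [inner_wv, lin_vertex] <;> simp
  · refine three_angles (x := wv b 0) (y := wv b 1) (z := wv b 2) (t := b 0 - b 3) ?_ ?_ ?_
      (wv_ne b _) (wv_ne b _) (wv_ne b _) e2 e4 e5 (dih_pos_lt b _) (dih_pos_lt b _)
      (dih_pos_lt b _) <;> rw [inner_wv, lin_vertex] <;> simp

end Basis

/-- The affine basis of four affinely independent points. -/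
lemma exists_basis (v : Fin 4 → E3) (hv : AffineIndependent ℝ v) :
    ∃ b : AffineBasis (Fin 4) ℝ E3, (b : Fin 4 → E3) = v := by
  have htop : affineSpan ℝ (range v) = ⊤ := by
    rw [hv.affineSpan_eq_top_iff_card_eq_finrank_add_one]
    simp
  exact ⟨⟨v, hv, htop⟩, rfl⟩

/-- Edge lengths, areas and dihedral angles. -/
theorem areas (v : Fin 4 → E3) (hv : AffineIndependent ℝ v) :
    ∃ (a : Fin 4 → ℝ) (K : ℝ), 0 < K ∧ (∀ c, 0 < a c) ∧
      (∀ e, len v e = K * a (ec e) * a (ed e) * sin (dih v e)) ∧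
      a 0 = a 1 * cos (dih v 5) + a 2 * cos (dih v 4) + a 3 * cos (dih v 3) ∧
      a 1 = a 0 * cos (dih v 5) + a 2 * cos (dih v 2) + a 3 * cos (dih v 1) ∧
      a 2 = a 0 * cos (dih v 4) + a 1 * cos (dih v 2) + a 3 * cos (dih v 0) ∧
      a 3 = a 0 * cos (dih v 3) + a 1 * cos (dih v 1) + a 2 * cos (dih v 0) := by
  obtain ⟨b, rfl⟩ := exists_basis v hv
  obtain ⟨K, hK, h⟩ := exists_K b
  obtain ⟨h0, h1, h2, h3⟩ := proj_facts b
  refine ⟨fun c => ‖wv b c‖, K, hK, fun c => norm_pos_iff.2 (wv_ne b c), fun e => ?_,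
    h0, h1, h2, h3⟩
  have : len b e = ln b e := rfl
  rw [this, h e]
  ring

/-- The dihedral angles lie strictly between `0` and `π`. -/
theorem dih_mem (v : Fin 4 → E3) (hv : AffineIndependent ℝ v) (e : Fin 6) :
    0 < dih v e ∧ dih v e < π := by
  obtain ⟨b, rfl⟩ := exists_basis v hv
  exact dih_pos_lt b e

/-- At every vertex the three dihedral angles have sum greater than `π`. -/
theorem vertex_sum (v : Fin 4 → E3) (hv : AffineIndependent ℝ v) :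
    π < dih v 0 + dih v 1 + dih v 2 ∧ π < dih v 0 + dih v 3 + dih v 4 ∧
    π < dih v 1 + dih v 3 + dih v 5 ∧ π < dih v 2 + dih v 4 + dih v 5 := by
  obtain ⟨b, rfl⟩ := exists_basis v hv
  exact vertex_sums b

end Pool.Agent.TetRel
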