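import Pool.Agent.TetRel.Cone
import Pool.Agent.TetRel.Bridge

/-! # The cone theorem for tetrahedra that tile (helper83, helper97) -/

set_option autoImplicit false

open MeasureTheory Set Module Metric

namespace Pool.Agent.TetRel

/-- A tetrahedron that tiles gives a tiling in the sense of `IsTiling`. -/
lemma Tiles.isTiling {v : Fin 4 → E3} (hv : AffineIndependent ℝ v) (hT : Tiles v) :
    ∃ (b : AffineBasis (Fin 4) ℝ E3) (S : Set (Set E3)) (Φ : Set E3 → (E3 ≃ᵢ E3)),
      (b : Fin 4 → E3) = v ∧ IsTiling b S Φ := by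
  classical
  obtain ⟨S, h1, h2, h3⟩ := hT
  have htop : affineSpan ℝ (range v) = ⊤ := by
    rw [hv.affineSpan_eq_top_iff_card_eq_finrank_add_one]
    simp
  let b : AffineBasis (Fin 4) ℝ E3 := ⟨v, hv, htop⟩
  have hb : (b : Fin 4 → E3) = v := rfl
  choose f hf using h1
  refine ⟨b, S, fun A => if h : A ∈ S then f A h else IsometryEquiv.refl E3, hb, ?_, ?_, ?_⟩
  · intro A hA
    simp only [dif_pos hA]
    exact hf A hA
  · intro x
    have : x ∈ ⋃₀ S := by rw [h2]; trivial
    exact this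
  · intro A hA B hB hne
    exact h3 hA hB hne

lemma ln_eq_len (b : AffineBasis (Fin 4) ℝ E3) (i : Fin 6) : ln b i = len (b : Fin 4 → E3) i := rfl

/-- **Cone theorem.** If a tetrahedron tiles space, the vector of its six edge lengths is a
positive combination of `k ≥ 2` linearly independent vectors `n` of nonnegative integers with
`∑ n e * θ e = 2 π`, where `θ e` are the dihedral angles. -/
theorem cone (v : Fin 4 → E3) (hv : AffineIndependent ℝ v) (hT : Tiles v) :
    ∃ (k : ℕ) (n : Fin k → Fin 6 → ℕ) (c : Fin k → ℝ), 2 ≤ k ∧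
      LinearIndependent ℝ (fun i : Fin k => fun e : Fin 6 => (n i e : ℝ)) ∧
      (∀ i, ∑ e, (n i e : ℝ) * dih v e = 2 * Real.pi) ∧ (∀ i, 0 < c i) ∧
      ∀ e, len v e = ∑ i, c i * (n i e : ℝ) := by
  obtain ⟨b, S, Φ, rfl, h⟩ := hT.isTiling hv
  obtain ⟨k, n, c, hk, hlin, htype, hc, hlen⟩ := h.cone0
  refine ⟨k, n, c, hk, hlin, fun i => ?_, hc, fun e => ?_⟩
  · have h1 := htype i
    have h2 : ∀ e, om b e = dih (b : Fin 4 → E3) e / (2 * Real.pi) := om_eq b
    simp only [h2] at h1
    have hpi : (2 * Real.pi) ≠ 0 := by positivity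
    have h3 : ∑ e, (n i e : ℝ) * (dih (b : Fin 4 → E3) e / (2 * Real.pi)) =
        (∑ e, (n i e : ℝ) * dih (b : Fin 4 → E3) e) / (2 * Real.pi) := by
      rw [Finset.sum_div]
      exact Finset.sum_congr rfl fun e _ => by rw [mul_div_assoc]
    rw [h3, div_eq_one_iff_eq hpi] at h1
    exact h1
  · rw [← ln_eq_len]; exact hlen e

end Pool.Agent.TetRel
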