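import Mathlib
import Pool.Agent.TetRel.Defs

/-! # Sommerville's disphenoid tiles space periodically (helper97)

The tetrahedra with two opposite edges `2 s` and four edges `√3 s` are the alcoves of the affine
Weyl group of type `D_3 = A_3`; the tiling is cut out by the planes `x i ± x j ∈ 2 s ℤ`. -/

set_option autoImplicit false

open Set Filter Topology

namespace Pool.Agent.TetRel.Sommer

/-- The six linear forms `x i ± x j`. -/
def F (k : Fin 6) (x : E3) : ℝ :=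
  ![x 0 - x 1, x 0 + x 1, x 1 - x 2, x 1 + x 2, x 0 - x 2, x 0 + x 2] k

/-- The (closed) cells of the arrangement of the planes `x i ± x j ∈ 2 s ℤ`. -/
def C (s : ℝ) (n : Fin 6 → ℤ) : Set E3 :=
  {x | ∀ k, 2 * s * n k ≤ F k x ∧ F k x ≤ 2 * s * n k + 2 * s}

theorem mem_C (s : ℝ) (n : Fin 6 → ℤ) (x : E3) : x ∈ C s n ↔
    (2 * s * n 0 ≤ x 0 - x 1 ∧ x 0 - x 1 ≤ 2 * s * n 0 + 2 * s) ∧
    (2 * s * n 1 ≤ x 0 + x 1 ∧ x 0 + x 1 ≤ 2 * s * n 1 + 2 * s) ∧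
    (2 * s * n 2 ≤ x 1 - x 2 ∧ x 1 - x 2 ≤ 2 * s * n 2 + 2 * s) ∧
    (2 * s * n 3 ≤ x 1 + x 2 ∧ x 1 + x 2 ≤ 2 * s * n 3 + 2 * s) ∧
    (2 * s * n 4 ≤ x 0 - x 2 ∧ x 0 - x 2 ≤ 2 * s * n 4 + 2 * s) ∧
    (2 * s * n 5 ≤ x 0 + x 2 ∧ x 0 + x 2 ≤ 2 * s * n 5 + 2 * s) := by
  constructor
  · intro h
    exact ⟨h 0, h 1, h 2, h 3, h 4, h 5⟩
  · rintro ⟨h0, h1, h2, h3, h4, h5⟩ k
    fin_cases k
    exacts [h0, h1, h2, h3, h4, h5]

theorem isom_of (f : E3 → E3) (h : ∀ x y : E3, (f x 0 - f y 0) ^ 2 + (f x 1 - f y 1) ^ 2 +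
    (f x 2 - f y 2) ^ 2 = (x 0 - y 0) ^ 2 + (x 1 - y 1) ^ 2 + (x 2 - y 2) ^ 2) : Isometry f := by
  refine Isometry.of_dist_eq fun x y => ?_
  rw [EuclideanSpace.dist_eq, EuclideanSpace.dist_eq, Fin.sum_univ_three, Fin.sum_univ_three]
  simp only [Real.dist_eq, sq_abs]
  rw [h]

/-- An involution of `E3`. -/
noncomputable def inv (f : E3 → E3) (hf : ∀ x, f (f x) = x) (h : Isometry f) : E3 ≃ᵢ E3 :=
  IsometryEquiv.mk' f f hf h

def sw01 (x : E3) : E3 := !₂[x 1, x 0, x 2]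
def sw12 (x : E3) : E3 := !₂[x 0, x 2, x 1]
def ng0 (x : E3) : E3 := !₂[-x 0, x 1, x 2]
def ng1 (x : E3) : E3 := !₂[x 0, -x 1, x 2]
def ng2 (x : E3) : E3 := !₂[x 0, x 1, -x 2]

/-- The isometries which permute the cells. -/
def Adm (s : ℝ) (g : E3 ≃ᵢ E3) : Prop := ∀ n, ∃ n', ∀ x, g x ∈ C s n' ↔ x ∈ C s n

/-- Points in a cell congruent to the cell `C s 0`. -/
def G (s : ℝ) (x : E3) : Prop := ∃ n, x ∈ C s n ∧ ∃ φ : E3 ≃ᵢ E3, C s n = φ '' C s 0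

theorem image_eq {s : ℝ} {g : E3 ≃ᵢ E3} {n n' : Fin 6 → ℤ}
    (h : ∀ x, g x ∈ C s n' ↔ x ∈ C s n) : C s n' = g '' C s n := by
  ext y
  constructor
  · intro hy
    refine ⟨g.symm y, (h _).1 (by rwa [g.apply_symm_apply]), g.apply_symm_apply y⟩
  · rintro ⟨x, hx, rfl⟩
    exact (h x).2 hx

theorem G_map {s : ℝ} {g : E3 ≃ᵢ E3} (hg : Adm s g) {x : E3} (hx : G s x) : G s (g x) := by
  obtain ⟨n, hn, φ, hφ⟩ := hx
  obtain ⟨n', hn'⟩ := hg n
  refine ⟨n', (hn' x).2 hn, φ.trans g, ?_⟩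
  rw [image_eq hn', hφ, image_image]
  rfl

theorem G_inv {s : ℝ} {f : E3 → E3} (hf : ∀ x, f (f x) = x) (h : Isometry f)
    (hg : Adm s (inv f hf h)) {x : E3} (hx : G s (f x)) : G s x := by
  have := G_map hg hx
  change G s (f (f x)) at this
  rwa [hf] at this

theorem G_sw01 {s : ℝ} {x : E3} (hx : G s (sw01 x)) : G s x := by
  refine G_inv (f := sw01) ?_ ?_ ?_ hx
  · intro x; ext i; fin_cases i <;> simp [sw01]
  · apply isom_of; intro x y; simp [sw01]; ring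
  · intro n
    refine ⟨![-n 0 - 1, n 1, n 4, n 5, n 2, n 3], fun x => ?_⟩
    change sw01 x ∈ _ ↔ _
    rw [mem_C, mem_C]
    simp [sw01]
    constructor <;> rintro ⟨⟨_, _⟩, ⟨_, _⟩, ⟨_, _⟩, ⟨_, _⟩, ⟨_, _⟩, ⟨_, _⟩⟩ <;>
      refine ⟨⟨?_, ?_⟩, ⟨?_, ?_⟩, ⟨?_, ?_⟩, ⟨?_, ?_⟩, ⟨?_, ?_⟩, ⟨?_, ?_⟩⟩ <;> linarith

theorem G_sw12 {s : ℝ} {x : E3} (hx : G s (sw12 x)) : G s x := by
  refine G_inv (f := sw12) ?_ ?_ ?_ hx
  · intro x; ext i; fin_cases i <;> simp [sw12]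
  · apply isom_of; intro x y; simp [sw12]; ring
  · intro n
    refine ⟨![n 4, n 5, -n 2 - 1, n 3, n 0, n 1], fun x => ?_⟩
    change sw12 x ∈ _ ↔ _
    rw [mem_C, mem_C]
    simp [sw12]
    constructor <;> rintro ⟨⟨_, _⟩, ⟨_, _⟩, ⟨_, _⟩, ⟨_, _⟩, ⟨_, _⟩, ⟨_, _⟩⟩ <;>
      refine ⟨⟨?_, ?_⟩, ⟨?_, ?_⟩, ⟨?_, ?_⟩, ⟨?_, ?_⟩, ⟨?_, ?_⟩, ⟨?_, ?_⟩⟩ <;> linarith

theorem G_ng0 {s : ℝ} {x : E3} (hx : G s (ng0 x)) : G s x := by
  refine G_inv (f := ng0) ?_ ?_ ?_ hx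
  · intro x; ext i; fin_cases i <;> simp [ng0]
  · apply isom_of; intro x y; simp [ng0]; ring
  · intro n
    refine ⟨![-n 1 - 1, -n 0 - 1, n 2, n 3, -n 5 - 1, -n 4 - 1], fun x => ?_⟩
    change ng0 x ∈ _ ↔ _
    rw [mem_C, mem_C]
    simp [ng0]
    constructor <;> rintro ⟨⟨_, _⟩, ⟨_, _⟩, ⟨_, _⟩, ⟨_, _⟩, ⟨_, _⟩, ⟨_, _⟩⟩ <;>
      refine ⟨⟨?_, ?_⟩, ⟨?_, ?_⟩, ⟨?_, ?_⟩, ⟨?_, ?_⟩, ⟨?_, ?_⟩, ⟨?_, ?_⟩⟩ <;> linarith

theorem G_ng1 {s : ℝ} {x : E3} (hx : G s (ng1 x)) : G s x := by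
  refine G_inv (f := ng1) ?_ ?_ ?_ hx
  · intro x; ext i; fin_cases i <;> simp [ng1]
  · apply isom_of; intro x y; simp [ng1]; ring
  · intro n
    refine ⟨![n 1, n 0, -n 3 - 1, -n 2 - 1, n 4, n 5], fun x => ?_⟩
    change ng1 x ∈ _ ↔ _
    rw [mem_C, mem_C]
    simp [ng1]
    constructor <;> rintro ⟨⟨_, _⟩, ⟨_, _⟩, ⟨_, _⟩, ⟨_, _⟩, ⟨_, _⟩, ⟨_, _⟩⟩ <;>
      refine ⟨⟨?_, ?_⟩, ⟨?_, ?_⟩, ⟨?_, ?_⟩, ⟨?_, ?_⟩, ⟨?_, ?_⟩, ⟨?_, ?_⟩⟩ <;> linarith

theorem G_ng2 {s : ℝ} {x : E3} (hx : G s (ng2 x)) : G s x := by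
  refine G_inv (f := ng2) ?_ ?_ ?_ hx
  · intro x; ext i; fin_cases i <;> simp [ng2]
  · apply isom_of; intro x y; simp [ng2]; ring
  · intro n
    refine ⟨![n 0, n 1, n 3, n 2, n 5, n 4], fun x => ?_⟩
    change ng2 x ∈ _ ↔ _
    rw [mem_C, mem_C]
    simp [ng2, -and_congr_right_iff, -and_congr_left_iff]
    constructor <;> rintro ⟨⟨_, _⟩, ⟨_, _⟩, ⟨_, _⟩, ⟨_, _⟩, ⟨_, _⟩, ⟨_, _⟩⟩ <;>
      refine ⟨⟨?_, ?_⟩, ⟨?_, ?_⟩, ⟨?_, ?_⟩, ⟨?_, ?_⟩, ⟨?_, ?_⟩, ⟨?_, ?_⟩⟩ <;> linarith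

/-- The lattice vectors. -/
def tr (s : ℝ) (m : Fin 3 → ℤ) : E3 := !₂[2 * s * m 0, 2 * s * m 1, 2 * s * m 2]

theorem adm_tr (s : ℝ) (m : Fin 3 → ℤ) : Adm s (IsometryEquiv.addRight (tr s m)) := by
  intro n
  refine ⟨![n 0 + (m 0 - m 1), n 1 + (m 0 + m 1), n 2 + (m 1 - m 2), n 3 + (m 1 + m 2),
    n 4 + (m 0 - m 2), n 5 + (m 0 + m 2)], fun x => ?_⟩
  change x + tr s m ∈ _ ↔ _
  rw [mem_C, mem_C]
  simp [tr]
  constructor <;> rintro ⟨⟨_, _⟩, ⟨_, _⟩, ⟨_, _⟩, ⟨_, _⟩, ⟨_, _⟩, ⟨_, _⟩⟩ <;>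
    refine ⟨⟨?_, ?_⟩, ⟨?_, ?_⟩, ⟨?_, ?_⟩, ⟨?_, ?_⟩, ⟨?_, ?_⟩, ⟨?_, ?_⟩⟩ <;> linarith

theorem G_tr {s : ℝ} (m : Fin 3 → ℤ) {x : E3} (hx : G s (x + tr s m)) : G s x := by
  have h := G_map (adm_tr s (-m)) hx
  change G s (x + tr s m + tr s (-m)) at h
  have e : x + tr s m + tr s (-m) = x := by
    ext i; fin_cases i <;> simp [tr]
  rwa [e] at h

theorem G_sorted {s : ℝ} {x : E3} (h2 : 0 ≤ x 2) (h12 : x 2 ≤ x 1) (h01 : x 1 ≤ x 0)
    (h0 : x 0 ≤ s) : G s x := by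
  refine ⟨0, ?_, IsometryEquiv.refl _, (image_id _).symm⟩
  rw [mem_C]
  simp only [Pi.zero_apply, Int.cast_zero, mul_zero, zero_add]
  refine ⟨⟨?_, ?_⟩, ⟨?_, ?_⟩, ⟨?_, ?_⟩, ⟨?_, ?_⟩, ⟨?_, ?_⟩, ⟨?_, ?_⟩⟩ <;> linarith

theorem G_nonneg {s : ℝ} {x : E3} (h : ∀ i, 0 ≤ x i ∧ x i ≤ s) : G s x := by
  -- sort by transpositions
  have key : ∀ y : E3, (∀ i, 0 ≤ y i ∧ y i ≤ s) → y 2 ≤ y 1 → y 2 ≤ y 0 → G s y := by
    intro y hy h1 h0
    rcases le_total (y 1) (y 0) with h | h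
    · exact G_sorted (hy 2).1 h1 h (hy 0).2
    · apply G_sw01
      refine G_sorted ?_ ?_ ?_ ?_ <;> simp [sw01]
      exacts [(hy 2).1, h0, h, (hy 1).2]
  have key2 : ∀ y : E3, (∀ i, 0 ≤ y i ∧ y i ≤ s) → (y 1 ≤ y 0 ∨ y 2 ≤ y 0) → G s y := by
    intro y hy h0
    rcases le_total (y 2) (y 1) with h | h
    · exact key y hy h (by rcases h0 with h0 | h0 <;> linarith)
    · apply G_sw12
      refine key _ ?_ ?_ ?_
      · intro i; fin_cases i <;> simp [sw12]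
        exacts [hy 0, hy 2, hy 1]
      · simp [sw12]; exact h
      · simp [sw12]; rcases h0 with h0 | h0 <;> linarith
  by_cases hc : x 1 ≤ x 0 ∨ x 2 ≤ x 0
  · exact key2 x h hc
  · push Not at hc
    apply G_sw01
    refine key2 _ ?_ (Or.inl ?_)
    · intro i; fin_cases i <;> simp [sw01]
      exacts [h 1, h 0, h 2]
    · simp [sw01]; exact hc.1.le

theorem G_abs {s : ℝ} {x : E3} (h : ∀ i, |x i| ≤ s) : G s x := by
  have h0 := abs_le.1 (h 0)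
  have h1 := abs_le.1 (h 1)
  have h2 := abs_le.1 (h 2)
  have P3 : ∀ y : E3, 0 ≤ y 0 → y 0 ≤ s → 0 ≤ y 1 → y 1 ≤ s → 0 ≤ y 2 → y 2 ≤ s → G s y := by
    intro y a b c d e f
    apply G_nonneg
    intro i; fin_cases i
    exacts [⟨a, b⟩, ⟨c, d⟩, ⟨e, f⟩]
  have P2 : ∀ y : E3, 0 ≤ y 0 → y 0 ≤ s → 0 ≤ y 1 → y 1 ≤ s → -s ≤ y 2 → y 2 ≤ s → G s y := by
    intro y a b c d e f
    rcases le_total 0 (y 2) with g | g
    · exact P3 y a b c d g f
    · apply G_ng2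
      apply P3 <;> simp [ng2] <;> linarith
  have P1 : ∀ y : E3, 0 ≤ y 0 → y 0 ≤ s → -s ≤ y 1 → y 1 ≤ s → -s ≤ y 2 → y 2 ≤ s → G s y := by
    intro y a b c d e f
    rcases le_total 0 (y 1) with g | g
    · exact P2 y a b g d e f
    · apply G_ng1
      apply P2 <;> simp [ng1] <;> linarith
  rcases le_total 0 (x 0) with g | g
  · exact P1 x g h0.2 h1.1 h1.2 h2.1 h2.2
  · apply G_ng0
    apply P1 <;> simp [ng0] <;> linarith

theorem G_all {s : ℝ} (hs : 0 < s) (x : E3) : G s x := by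
  apply G_tr (fun i => -round (x i / (2 * s)))
  apply G_abs
  have key : ∀ t : ℝ, |t + 2 * s * ((-round (t / (2 * s)) : ℤ) : ℝ)| ≤ s := by
    intro t
    have h := abs_sub_round (t / (2 * s))
    have e : t + 2 * s * ((-round (t / (2 * s)) : ℤ) : ℝ) =
        2 * s * (t / (2 * s) - round (t / (2 * s))) := by
      push_cast
      field_simp
      ring
    rw [e, abs_mul, abs_of_pos (by linarith : 0 < 2 * s)]
    have := mul_le_mul_of_nonneg_left h (by linarith : 0 ≤ 2 * s)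
    linarith
  intro i
  fin_cases i
  · have := key (x 0); simpa [tr] using this
  · have := key (x 1); simpa [tr] using this
  · have := key (x 2); simpa [tr] using this

theorem F_add (k : Fin 6) (x y : E3) : F k (x + y) = F k x + F k y := by
  fin_cases k <;> simp [F] <;> ring

theorem F_smul (k : Fin 6) (c : ℝ) (x : E3) : F k (c • x) = c * F k x := by
  fin_cases k <;> simp [F] <;> ring

/-- A direction in which the form `F k` grows. -/
theorem exists_dir (k : Fin 6) : ∃ u : E3, F k u = 1 := by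
  fin_cases k
  · exact ⟨!₂[1, 0, 0], by simp [F]⟩
  · exact ⟨!₂[1, 0, 0], by simp [F]⟩
  · exact ⟨!₂[0, 1, 0], by simp [F]⟩
  · exact ⟨!₂[0, 1, 0], by simp [F]⟩
  · exact ⟨!₂[1, 0, 0], by simp [F]⟩
  · exact ⟨!₂[1, 0, 0], by simp [F]⟩

theorem lt_of_interior {s : ℝ} {n : Fin 6 → ℤ} {x : E3} (hx : x ∈ interior (C s n)) (k : Fin 6) :
    F k x < 2 * s * n k + 2 * s := by
  obtain ⟨u, hu⟩ := exists_dir k
  have hc : Tendsto (fun t : ℝ => x + t • u) (𝓝 0) (𝓝 x) := by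
    have : Continuous (fun t : ℝ => x + t • u) := by fun_prop
    simpa using this.tendsto 0
  have h1 : ∀ᶠ t : ℝ in 𝓝 0, x + t • u ∈ C s n := hc (mem_interior_iff_mem_nhds.1 hx)
  have h2 : ∀ᶠ t : ℝ in 𝓝[>] 0, x + t • u ∈ C s n := h1.filter_mono nhdsWithin_le_nhds
  obtain ⟨t, ht, ht0⟩ := (h2.and self_mem_nhdsWithin).exists
  have h3 := (ht k).2
  rw [F_add, F_smul, hu] at h3
  have : 0 < t := ht0
  linarith

theorem disj {s : ℝ} (hs : 0 < s) {n m : Fin 6 → ℤ} (h : C s n ≠ C s m) :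
    Disjoint (interior (C s n)) (interior (C s m)) := by
  have hne : n ≠ m := fun e => h (by rw [e])
  obtain ⟨k, hk⟩ := Function.ne_iff.1 hne
  have key : ∀ (a b : Fin 6 → ℤ), a k < b k → Disjoint (interior (C s a)) (interior (C s b)) := by
    intro a b hab
    rw [Set.disjoint_left]
    intro x hx hx'
    have h1 := lt_of_interior hx k
    have h2 := (interior_subset hx' k).1
    have h3 : ((a k : ℤ) : ℝ) + 1 ≤ b k := by exact_mod_cast hab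
    have h4 := mul_le_mul_of_nonneg_left h3 (by linarith : 0 ≤ 2 * s)
    linarith
  rcases lt_or_gt_of_ne hk with h' | h'
  · exact key n m h'
  · exact (key m n h').symm

/-- The vertices of the standard disphenoid. -/
def q (s : ℝ) : Fin 4 → E3 := ![0, !₂[s, s, s], !₂[2 * s, 0, 0], !₂[s, s, -s]]

theorem C_convex (s : ℝ) (n : Fin 6 → ℤ) : Convex ℝ (C s n) := by
  intro x hx y hy a b ha hb hab k
  have h1 := hx k
  have h2 := hy k
  rw [F_add, F_smul, F_smul]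
  have e1 : 2 * s * (n k : ℝ) = a * (2 * s * n k) + b * (2 * s * n k) := by
    rw [← add_mul, hab, one_mul]
  have e2 : 2 * s * (n k : ℝ) + 2 * s = a * (2 * s * n k + 2 * s) + b * (2 * s * n k + 2 * s) := by
    rw [← add_mul, hab, one_mul]
  constructor
  · rw [e1]
    exact add_le_add (mul_le_mul_of_nonneg_left h1.1 ha) (mul_le_mul_of_nonneg_left h2.1 hb)
  · rw [e2]
    exact add_le_add (mul_le_mul_of_nonneg_left h1.2 ha) (mul_le_mul_of_nonneg_left h2.2 hb)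

theorem hull_q {s : ℝ} (hs : 0 < s) : convexHull ℝ (range (q s)) = C s 0 := by
  apply Subset.antisymm
  · apply convexHull_min _ (C_convex s 0)
    rintro _ ⟨i, rfl⟩
    rw [mem_C]
    fin_cases i <;> refine ⟨⟨?_, ?_⟩, ⟨?_, ?_⟩, ⟨?_, ?_⟩, ⟨?_, ?_⟩, ⟨?_, ?_⟩, ⟨?_, ?_⟩⟩ <;>
      simp [q] <;> linarith
  · intro x hx
    rw [mem_C] at hx
    simp only [Pi.zero_apply, Int.cast_zero, mul_zero, zero_add] at hx
    obtain ⟨⟨h0, h0'⟩, ⟨h1, h1'⟩, ⟨h2, h2'⟩, ⟨h3, h3'⟩, -, -⟩ := hx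
    let w : Fin 4 → ℝ := ![1 - (x 0 + x 1) / (2 * s), (x 1 + x 2) / (2 * s),
      (x 0 - x 1) / (2 * s), (x 1 - x 2) / (2 * s)]
    have hw : ∀ i ∈ Finset.univ, 0 ≤ w i := by
      intro i _
      fin_cases i
      · change 0 ≤ 1 - (x 0 + x 1) / (2 * s)
        rw [sub_nonneg, div_le_one (by linarith)]; exact h1'
      · exact div_nonneg h3 (by linarith)
      · exact div_nonneg h0 (by linarith)
      · exact div_nonneg h2 (by linarith)
    have hw1 : ∑ i, w i = 1 := by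
      rw [Fin.sum_univ_four]
      change 1 - (x 0 + x 1) / (2 * s) + (x 1 + x 2) / (2 * s) + (x 0 - x 1) / (2 * s) +
        (x 1 - x 2) / (2 * s) = 1
      field_simp
      ring
    have hm := (convex_convexHull ℝ (range (q s))).sum_mem hw hw1
      (fun i _ => subset_convexHull ℝ _ (mem_range_self i))
    have e : ∑ i, w i • q s i = x := by
      rw [Fin.sum_univ_four]
      ext j
      fin_cases j
      all_goals
        simp [w, q]
        field_simp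
        ring
    rwa [e] at hm

/-- The linear map which carries the standard disphenoid to a given one. -/
noncomputable def L (s : ℝ) (v : Fin 4 → E3) : E3 →ₗ[ℝ] E3 where
  toFun x := ((x 1 + x 2) / (2 * s)) • (v 1 - v 0) + ((x 0 - x 1) / (2 * s)) • (v 2 - v 0) +
    ((x 1 - x 2) / (2 * s)) • (v 3 - v 0)
  map_add' x y := by
    simp only [PiLp.add_apply]
    module
  map_smul' c x := by
    simp only [PiLp.smul_apply, smul_eq_mul, RingHom.id_apply]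
    module

/-- `v` is congruent to the disphenoid with two opposite edges `2 s` and four edges `√3 s`. -/
structure IsSomm (s : ℝ) (v : Fin 4 → E3) : Prop where
  pos : 0 < s
  h02 : dist (v 0) (v 2) = 2 * s
  h13 : dist (v 1) (v 3) = 2 * s
  h01 : dist (v 0) (v 1) = √3 * s
  h03 : dist (v 0) (v 3) = √3 * s
  h12 : dist (v 1) (v 2) = √3 * s
  h23 : dist (v 2) (v 3) = √3 * s

variable {s : ℝ} {v : Fin 4 → E3}

theorem norm_L (h : IsSomm s v) (x : E3) : ‖L s v x‖ = ‖x‖ := by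
  obtain ⟨hs, h02, h13, h01, h03, h12, h23⟩ := h
  have h3 : (√3 * s) ^ 2 = 3 * s ^ 2 := by
    rw [mul_pow, Real.sq_sqrt (by norm_num)]
  set A := v 1 - v 0 with hA
  set B := v 2 - v 0 with hB
  set D := v 3 - v 0 with hD
  have nA : ‖A‖ ^ 2 = 3 * s ^ 2 := by rw [hA, ← dist_eq_norm, dist_comm, h01, h3]
  have nB : ‖B‖ ^ 2 = 4 * s ^ 2 := by rw [hB, ← dist_eq_norm, dist_comm, h02]; ring
  have nD : ‖D‖ ^ 2 = 3 * s ^ 2 := by rw [hD, ← dist_eq_norm, dist_comm, h03, h3]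
  have nAB : ‖A - B‖ ^ 2 = 3 * s ^ 2 := by
    rw [hA, hB, sub_sub_sub_cancel_right, ← dist_eq_norm, h12, h3]
  have nAD : ‖A - D‖ ^ 2 = 4 * s ^ 2 := by
    rw [hA, hD, sub_sub_sub_cancel_right, ← dist_eq_norm, h13]; ring
  have nBD : ‖B - D‖ ^ 2 = 3 * s ^ 2 := by
    rw [hB, hD, sub_sub_sub_cancel_right, ← dist_eq_norm, h23, h3]
  rw [norm_sub_sq_real] at nAB nAD nBD
  have iAB : inner ℝ A B = 2 * s ^ 2 := by linarith
  have iAD : inner ℝ A D = s ^ 2 := by linarith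
  have iBD : inner ℝ B D = 2 * s ^ 2 := by linarith
  have key : ∀ a b d : ℝ, ‖a • A + b • B + d • D‖ ^ 2 =
      a ^ 2 * (3 * s ^ 2) + b ^ 2 * (4 * s ^ 2) + d ^ 2 * (3 * s ^ 2) + 2 * (a * b) * (2 * s ^ 2) +
        2 * (a * d) * s ^ 2 + 2 * (b * d) * (2 * s ^ 2) := by
    intro a b d
    rw [norm_add_sq_real, norm_add_sq_real, inner_add_left, real_inner_smul_left,
      real_inner_smul_right, real_inner_smul_left, real_inner_smul_right, real_inner_smul_left,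
      real_inner_smul_right, norm_smul, norm_smul, norm_smul, mul_pow, mul_pow, mul_pow, nA, nB,
      nD, iAB, iAD, iBD, Real.norm_eq_abs, Real.norm_eq_abs, Real.norm_eq_abs, sq_abs, sq_abs,
      sq_abs]
    ring
  have e : ‖L s v x‖ ^ 2 = ‖x‖ ^ 2 := by
    change ‖((x 1 + x 2) / (2 * s)) • A + ((x 0 - x 1) / (2 * s)) • B +
      ((x 1 - x 2) / (2 * s)) • D‖ ^ 2 = _
    rw [key, EuclideanSpace.norm_sq_eq, Fin.sum_univ_three]
    simp only [Real.norm_eq_abs, sq_abs]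
    field_simp
    ring
  exact (pow_left_inj₀ (norm_nonneg _) (norm_nonneg _) two_ne_zero).1 e

/-- The linear isometry. -/
noncomputable def LI (h : IsSomm s v) : E3 ≃ₗᵢ[ℝ] E3 :=
  LinearIsometry.toLinearIsometryEquiv ⟨L s v, norm_L h⟩ rfl

theorem LI_apply (h : IsSomm s v) (x : E3) : LI h x = L s v x := rfl

/-- The isometry which carries the standard disphenoid to the given one. -/
noncomputable def Psi (h : IsSomm s v) : E3 ≃ᵢ E3 :=
  (LI h).toIsometryEquiv.trans (IsometryEquiv.addRight (v 0))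

theorem Psi_apply (h : IsSomm s v) (x : E3) : Psi h x = L s v x + v 0 := rfl

theorem Psi_q (h : IsSomm s v) (i : Fin 4) : Psi h (q s i) = v i := by
  have hs := h.pos
  have h2 : (2 * s) / (2 * s) = 1 := div_self (by linarith)
  have h3 : (s + s) / (2 * s) = 1 := by rw [← two_mul]; exact h2
  rw [Psi_apply]
  fin_cases i
  · simp [L, q]
  · simp [L, q, h3]
  · simp [L, q, h2]
  · simp [L, q, h3]

theorem Psi_hull (h : IsSomm s v) : Psi h '' C s 0 = convexHull ℝ (range v) := by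
  rw [← hull_q h.pos]
  let f : E3 →ᵃ[ℝ] E3 := (L s v).toAffineMap + AffineMap.const ℝ E3 (v 0)
  have hf : (Psi h : E3 → E3) = f := by
    funext x
    rfl
  rw [hf, AffineMap.image_convexHull, ← hf]
  congr 1
  ext y
  constructor
  · rintro ⟨_, ⟨i, rfl⟩, rfl⟩
    exact ⟨i, (Psi_q h i).symm⟩
  · rintro ⟨i, rfl⟩
    exact ⟨_, ⟨i, rfl⟩, Psi_q h i⟩

/-- The disphenoid with two opposite edges `2 s` and the four other edges `√3 s` tiles
space periodically. -/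
theorem periodic (h : IsSomm s v) :
    ∃ S : Set (Set E3),
      (∀ A ∈ S, ∃ φ : E3 ≃ᵢ E3, A = φ '' convexHull ℝ (range v)) ∧
      ⋃₀ S = univ ∧
      S.Pairwise (fun A B => Disjoint (interior A) (interior B)) ∧
      ∃ a : Fin 3 → E3, LinearIndependent ℝ a ∧ ∀ i, ∀ A ∈ S, (fun x => x + a i) '' A ∈ S := by
  have hs := h.pos
  refine ⟨{A | ∃ n, A = Psi h '' C s n ∧ ∃ φ : E3 ≃ᵢ E3, A = φ '' convexHull ℝ (range v)},
    ?_, ?_, ?_, ?_⟩
  · rintro A ⟨n, -, hA⟩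
    exact hA
  · rw [sUnion_eq_univ_iff]
    intro x
    obtain ⟨n, hn, φ, hφ⟩ := G_all hs ((Psi h).symm x)
    refine ⟨Psi h '' C s n, ⟨n, rfl, (Psi h).symm.trans (φ.trans (Psi h)), ?_⟩,
      ⟨_, hn, (Psi h).apply_symm_apply x⟩⟩
    rw [← Psi_hull h, hφ, image_image, image_image]
    refine image_congr' fun y => ?_
    change Psi h (φ y) = Psi h (φ ((Psi h).symm (Psi h y)))
    rw [(Psi h).symm_apply_apply]
  · rintro _ ⟨n, rfl, -⟩ _ ⟨m, rfl, -⟩ hne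
    have e : ∀ X : Set E3, interior (Psi h '' X) = Psi h '' interior X := fun X =>
      ((Psi h).toHomeomorph.image_interior X).symm
    rw [e, e, Set.disjoint_image_iff (Psi h).injective]
    exact disj hs fun he => hne (by rw [he])
  · refine ⟨fun i => L s v (tr s (Pi.single i 1)), ?_, ?_⟩
    · rw [Fintype.linearIndependent_iff]
      intro g hg
      have h1 : L s v (∑ i, g i • tr s (Pi.single i 1)) = 0 := by
        rw [map_sum, ← hg]
        exact Finset.sum_congr rfl fun i _ => map_smul _ _ _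
      have h2 : ∑ i, g i • tr s (Pi.single i 1) = 0 := by
        rw [← norm_eq_zero, ← norm_L h, h1, norm_zero]
      rw [Fin.sum_univ_three] at h2
      have c0 := congrArg (fun x : E3 => x 0) h2
      have c1 := congrArg (fun x : E3 => x 1) h2
      have c2 := congrArg (fun x : E3 => x 2) h2
      simp [tr] at c0 c1 c2
      intro i
      fin_cases i
      · exact c0.resolve_right hs.ne'
      · exact c1.resolve_right hs.ne'
      · exact c2.resolve_right hs.ne'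
    · rintro i A ⟨n, hA, φ, hφ⟩
      obtain ⟨n', hn'⟩ := adm_tr s (Pi.single i 1) n
      refine ⟨n', ?_, φ.trans (IsometryEquiv.addRight (L s v (tr s (Pi.single i 1)))), ?_⟩
      · rw [image_eq hn', hA, image_image, image_image]
        refine image_congr' fun y => ?_
        change Psi h y + L s v (tr s (Pi.single i 1)) = Psi h (y + tr s (Pi.single i 1))
        rw [Psi_apply, Psi_apply, map_add]
        abel
      · rw [hφ, image_image]
        rfl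

end Pool.Agent.TetRel.Sommer
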