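import Pool.Agent.TetRel.Limit

/-! # The length vector is a positive combination of at least two independent types (helper83) -/

set_option autoImplicit false

open MeasureTheory Set Module Metric
open scoped Pointwise

namespace Pool.Agent.TetRel

variable (b : AffineBasis (Fin 4) ℝ E3)

/-- the types as real vectors -/
def rtypes : Set (Fin 6 → ℝ) := (fun n : Fin 6 → ℕ => fun i => (n i : ℝ)) '' types b

lemma types_finite : (types b).Finite := by
  refine (Set.finite_Icc (0 : Fin 6 → ℕ) (fun i => ⌊1 / om b i⌋₊)).subset ?_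
  intro n hn
  refine ⟨fun i => Nat.zero_le _, fun i => Nat.le_floor ?_⟩
  rw [le_div_iff₀ (om_pos b i)]
  have h1 : ∑ i, (n i : ℝ) * om b i = 1 := hn
  rw [← h1]
  exact Finset.single_le_sum (f := fun i => (n i : ℝ) * om b i)
    (fun i _ => mul_nonneg (Nat.cast_nonneg _) (om_pos b i).le) (Finset.mem_univ i)

lemma rtypes_finite : (rtypes b).Finite := (types_finite b).image _

/-- the normalising factor -/
noncomputable def lam : ℝ := ∑ i, ln b i * om b i

lemma lam_pos : 0 < lam b :=
  Finset.sum_pos (fun i _ => mul_pos (ln_pos b i) (om_pos b i)) Finset.univ_nonempty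

variable {b} {S : Set (Set E3)} {Φ : Set E3 → (E3 ≃ᵢ E3)} (h : IsTiling b S Φ)
include h

lemma IsTiling.mem_convexHull : (fun i => (lam b)⁻¹ * ln b i) ∈ convexHull ℝ (rtypes b) := by
  by_contra hcon
  obtain ⟨f, u, hf1, hf2⟩ := geometric_hahn_banach_closed_point (convex_convexHull ℝ (rtypes b))
    ((rtypes_finite b).isCompact_convexHull ℝ).isClosed hcon
  have hf : ∀ x : Fin 6 → ℝ, f x = ∑ i, f (Pi.single i 1) * x i := by
    intro x
    conv_lhs => rw [← Finset.univ_sum_single x]
    rw [map_sum]
    refine Finset.sum_congr rfl fun i _ => ?_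
    have : (Pi.single i (x i) : Fin 6 → ℝ) = x i • Pi.single i (1 : ℝ) := by
      rw [← Pi.single_smul, smul_eq_mul, mul_one]
    rw [this, map_smul, smul_eq_mul, mul_comm]
  have hy : ∀ n ∈ types b, 0 ≤ ∑ i, (u * om b i - f (Pi.single i 1)) * (n i : ℝ) := by
    intro n hn
    have h1 : ∑ i, (n i : ℝ) * om b i = 1 := hn
    have h2 := hf1 (fun i => (n i : ℝ)) (subset_convexHull ℝ _ ⟨n, hn, rfl⟩)
    rw [hf] at h2
    have h3 : ∑ i, (u * om b i - f (Pi.single i 1)) * (n i : ℝ) =
        u * (∑ i, (n i : ℝ) * om b i) - ∑ i, f (Pi.single i 1) * (n i : ℝ) := by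
      rw [Finset.mul_sum, ← Finset.sum_sub_distrib]
      exact Finset.sum_congr rfl fun i _ => by ring
    rw [h3, h1]; linarith
  have h4 := h.cone_ineq hy
  have h5 : ∑ i, (u * om b i - f (Pi.single i 1)) * ln b i =
      u * lam b - ∑ i, f (Pi.single i 1) * ln b i := by
    unfold lam
    rw [Finset.mul_sum, ← Finset.sum_sub_distrib]
    exact Finset.sum_congr rfl fun i _ => by ring
  rw [hf] at hf2
  have h6 : ∑ i, f (Pi.single i 1) * ((lam b)⁻¹ * ln b i) =
      (lam b)⁻¹ * ∑ i, f (Pi.single i 1) * ln b i := by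
    rw [Finset.mul_sum]
    exact Finset.sum_congr rfl fun i _ => by ring
  rw [h6] at hf2
  have hl := lam_pos b
  have h7 : u * lam b < ∑ i, f (Pi.single i 1) * ln b i := by
    rw [← div_eq_inv_mul, lt_div_iff₀ hl] at hf2
    exact hf2
  rw [h5] at h4
  linarith

/-- The vector of edge lengths is a positive combination of at least two linearly independent
types. -/
theorem IsTiling.cone0 : ∃ (k : ℕ) (n : Fin k → Fin 6 → ℕ) (c : Fin k → ℝ), 2 ≤ k ∧
    LinearIndependent ℝ (fun i : Fin k => fun e : Fin 6 => (n i e : ℝ)) ∧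
    (∀ i, ∑ e, (n i e : ℝ) * om b e = 1) ∧ (∀ i, 0 < c i) ∧
    ∀ e, ln b e = ∑ i, c i * (n i e : ℝ) := by
  obtain ⟨ι, hι, z, w, hz, haff, hw, hw1, hsum⟩ :=
    eq_pos_convex_span_of_mem_convexHull h.mem_convexHull
  have hz' : ∀ i, ∃ n : Fin 6 → ℕ, n ∈ types b ∧ (fun e => (n e : ℝ)) = z i :=
    fun i => hz (mem_range_self i)
  choose n hn hnz using hz'
  have hom : ∀ i, ∑ e, z i e * om b e = 1 := by
    intro i
    rw [← hnz i]; exact hn i
  have hlin : LinearIndependent ℝ z := by
    rw [Fintype.linearIndependent_iff]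
    intro g hg
    have h1 : ∑ i, g i = 0 := by
      have h2 : ∑ e, (∑ i, g i • z i) e * om b e = 0 := by rw [hg]; simp
      simp only [Finset.sum_apply, Pi.smul_apply, smul_eq_mul, Finset.sum_mul] at h2
      rw [Finset.sum_comm] at h2
      have h3 : ∀ i, ∑ e, g i * z i e * om b e = g i := by
        intro i
        simp only [mul_assoc, ← Finset.mul_sum, hom, mul_one]
      simpa only [h3] using h2
    have h4 := (affineIndependent_iff.1 haff) Finset.univ g h1 hg
    exact fun i => h4 i (Finset.mem_univ i)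
  let e := Fintype.equivFin ι
  have hl := lam_pos b
  have hlen : ∀ x, ln b x = ∑ i : Fin (Fintype.card ι), (lam b * w (e.symm i)) *
      (n (e.symm i) x : ℝ) := by
    intro x
    have h1 := congrFun hsum x
    simp only [Finset.sum_apply, Pi.smul_apply, smul_eq_mul] at h1
    have h2 : ∑ i : Fin (Fintype.card ι), (lam b * w (e.symm i)) * (n (e.symm i) x : ℝ) =
        ∑ j, (lam b * w j) * (n j x : ℝ) :=
      Equiv.sum_comp e.symm (fun j => (lam b * w j) * (n j x : ℝ))
    rw [h2]
    have h3 : ∀ j, (n j x : ℝ) = z j x := fun j => by rw [← hnz j]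
    simp only [h3, mul_assoc, ← Finset.mul_sum]
    rw [h1]
    field_simp
  refine ⟨Fintype.card ι, fun i => n (e.symm i), fun i => lam b * w (e.symm i), ?_, ?_, ?_, ?_, hlen⟩
  · by_contra hk
    have hk' : Fintype.card ι = 0 ∨ Fintype.card ι = 1 := by omega
    have hpos : ∀ x, 0 < ∑ i : Fin (Fintype.card ι), (lam b * w (e.symm i)) *
      (n (e.symm i) x : ℝ) := fun x => (hlen x) ▸ ln_pos b x
    rcases hk' with hk' | hk'
    · have := hpos 0
      have hemp : IsEmpty (Fin (Fintype.card ι)) := by rw [hk']; infer_instance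
      rw [Finset.univ_eq_empty, Finset.sum_empty] at this
      exact lt_irrefl _ this
    · obtain ⟨j, hj⟩ : ∃ j : Fin (Fintype.card ι), ∀ i, i = j := by
        rw [hk']; exact ⟨0, fun i => Subsingleton.elim _ _⟩
      have h1 : ∀ x, 1 ≤ n (e.symm j) x := by
        intro x
        by_contra h0
        have h0 : n (e.symm j) x = 0 := by omega
        have := hpos x
        rw [Finset.sum_eq_zero] at this
        · exact lt_irrefl _ this
        · intro i _
          rw [hj i, h0]; simp
      have h2 : ∑ x, (n (e.symm j) x : ℝ) * om b x = 1 := hn (e.symm j)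
      have h3 : ∑ x, om b x ≤ ∑ x, (n (e.symm j) x : ℝ) * om b x := by
        refine Finset.sum_le_sum fun x _ => ?_
        have : (1 : ℝ) ≤ n (e.symm j) x := by exact_mod_cast h1 x
        nlinarith [om_pos b x]
      have h4 : 1 < ∑ x, om b x := gaddum b
      linarith
  · have : (fun i : Fin (Fintype.card ι) => fun x : Fin 6 => (n (e.symm i) x : ℝ)) =
        z ∘ e.symm := by
      funext i; exact hnz _
    rw [this]
    exact hlin.comp _ e.symm.injective
  · exact fun i => hn _
  · exact fun i => mul_pos hl (hw _)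

end Pool.Agent.TetRel
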