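import Pool.Agent.TetRel.Edge
import Pool.Agent.TetRel.Dihedral

/-! # Face normals, edge lengths and dihedral angles (helper97)

`wv b c` is the gradient of the barycentric coordinate `c`; its norm is (area of the face opposite
to the vertex `c`) / (3 * volume). -/

set_option autoImplicit false

open Module Real
open scoped InnerProductSpace

namespace Pool.Agent.TetRel

lemma perp_inner {e : E3} (he : e ≠ 0) (p : E3) : ⟪e, perp e p⟫_ℝ = 0 := by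
  unfold perp
  rw [inner_sub_right, inner_smul_right]
  have : ⟪e, e⟫_ℝ ≠ 0 := by simpa using he
  field_simp
  ring

/-- Two vectors dual to `p`, `q` in the plane orthogonal to `e`. -/
lemma dual_pair {e p q u v : E3} (hspan : ∀ z : E3, ∃ x y t : ℝ, z = x • e + y • p + t • q)
    (hue : ⟪u, e⟫_ℝ = 0) (hup : ⟪u, p⟫_ℝ = 1) (huq : ⟪u, q⟫_ℝ = 0)
    (hve : ⟪v, e⟫_ℝ = 0) (hvp : ⟪v, p⟫_ℝ = 0) (hvq : ⟪v, q⟫_ℝ = 1)
    (he : e ≠ 0) (hP0 : perp e p ≠ 0) (hQ0 : perp e q ≠ 0)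
    (h0 : 0 < InnerProductGeometry.angle (perp e p) (perp e q))
    (hπ : InnerProductGeometry.angle (perp e p) (perp e q) < π) :
    ⟪u, v⟫_ℝ = -(‖u‖ * ‖v‖ * cos (InnerProductGeometry.angle (perp e p) (perp e q))) ∧
    ‖u‖ * ‖v‖ * sin (InnerProductGeometry.angle (perp e p) (perp e q)) *
      (‖perp e p‖ * ‖perp e q‖ * sin (InnerProductGeometry.angle (perp e p) (perp e q))) = 1 := by
  have hs : 0 < sin (InnerProductGeometry.angle (perp e p) (perp e q)) :=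
    sin_pos_of_pos_of_lt_pi h0 hπ
  have hcos : cos (InnerProductGeometry.angle (perp e p) (perp e q)) * (‖perp e p‖ * ‖perp e q‖)
      = ⟪perp e p, perp e q⟫_ℝ := InnerProductGeometry.cos_angle_mul_norm_mul_norm _ _
  have hsc := sin_sq_add_cos_sq (InnerProductGeometry.angle (perp e p) (perp e q))
  generalize InnerProductGeometry.angle (perp e p) (perp e q) = θ at *
  have heP : ⟪e, perp e p⟫_ℝ = 0 := perp_inner he p
  have heQ : ⟪e, perp e q⟫_ℝ = 0 := perp_inner he q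
  have uP : ⟪u, perp e p⟫_ℝ = 1 := by
    unfold perp; rw [inner_sub_right, inner_smul_right, hue, hup]; ring
  have uQ : ⟪u, perp e q⟫_ℝ = 0 := by
    unfold perp; rw [inner_sub_right, inner_smul_right, hue, huq]; ring
  have vP : ⟪v, perp e p⟫_ℝ = 0 := by
    unfold perp; rw [inner_sub_right, inner_smul_right, hve, hvp]; ring
  have vQ : ⟪v, perp e q⟫_ℝ = 1 := by
    unfold perp; rw [inner_sub_right, inner_smul_right, hve, hvq]; ring
  have hp : p = perp e p + (⟪e, p⟫_ℝ / ⟪e, e⟫_ℝ) • e := by unfold perp; abel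
  have hq : q = perp e q + (⟪e, q⟫_ℝ / ⟪e, e⟫_ℝ) • e := by unfold perp; abel
  generalize ⟪e, p⟫_ℝ / ⟪e, e⟫_ℝ = α at *
  generalize ⟪e, q⟫_ℝ / ⟪e, e⟫_ℝ = β at *
  generalize perp e p = P at *
  generalize perp e q = Q at *
  have hP : 0 < ‖P‖ := norm_pos_iff.2 hP0
  have hQ : 0 < ‖Q‖ := norm_pos_iff.2 hQ0
  have PP : ⟪P, P⟫_ℝ = ‖P‖ ^ 2 := real_inner_self_eq_norm_sq P
  have QQ : ⟪Q, Q⟫_ℝ = ‖Q‖ ^ 2 := real_inner_self_eq_norm_sq Q
  have QP : ⟪Q, P⟫_ℝ = ⟪P, Q⟫_ℝ := real_inner_comm _ _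
  have Pe : ⟪P, e⟫_ℝ = 0 := by rw [real_inner_comm]; exact heP
  have Qe : ⟪Q, e⟫_ℝ = 0 := by rw [real_inner_comm]; exact heQ
  have Pu : ⟪P, u⟫_ℝ = 1 := by rw [real_inner_comm]; exact uP
  have Qu : ⟪Q, u⟫_ℝ = 0 := by rw [real_inner_comm]; exact uQ
  have Pv : ⟪P, v⟫_ℝ = 0 := by rw [real_inner_comm]; exact vP
  have Qv : ⟪Q, v⟫_ℝ = 1 := by rw [real_inner_comm]; exact vQ
  set D : ℝ := ‖P‖ * ‖Q‖ * sin θ with hD
  have hDpos : 0 < D := by positivity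
  have hD2 : D ^ 2 = ‖P‖ ^ 2 * ‖Q‖ ^ 2 - ⟪P, Q⟫_ℝ ^ 2 := by
    rw [← hcos, hD]
    have : sin θ ^ 2 = 1 - cos θ ^ 2 := by linarith
    rw [mul_pow, this]; ring
  have hDne : D ^ 2 ≠ 0 := by positivity
  have hu : u = (‖Q‖ ^ 2 / D ^ 2) • P - (⟪P, Q⟫_ℝ / D ^ 2) • Q := by
    apply ext_inner_right ℝ
    intro z
    obtain ⟨x, y, t, hz⟩ := hspan z
    rw [hz, hp, hq]
    have hup' : ⟪u, P⟫_ℝ = 1 := uP
    simp only [inner_add_right, inner_smul_right, inner_sub_left, inner_smul_left, hue, hup', uQ,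
      Pe, Qe, PP, QQ, QP, RCLike.conj_to_real]
    field_simp
    rw [hD2]
    ring
  have hv : v = (‖P‖ ^ 2 / D ^ 2) • Q - (⟪P, Q⟫_ℝ / D ^ 2) • P := by
    apply ext_inner_right ℝ
    intro z
    obtain ⟨x, y, t, hz⟩ := hspan z
    rw [hz, hp, hq]
    simp only [inner_add_right, inner_smul_right, inner_sub_left, inner_smul_left, hve, vP, vQ,
      Pe, Qe, PP, QQ, QP, RCLike.conj_to_real]
    field_simp
    rw [hD2]
    ring
  have huu : ‖u‖ ^ 2 = ‖Q‖ ^ 2 / D ^ 2 := by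
    rw [← real_inner_self_eq_norm_sq]
    conv_lhs => lhs; rw [hu]
    rw [inner_sub_left, inner_smul_left, inner_smul_left, Pu, Qu]
    simp
  have hvv : ‖v‖ ^ 2 = ‖P‖ ^ 2 / D ^ 2 := by
    rw [← real_inner_self_eq_norm_sq]
    conv_lhs => lhs; rw [hv]
    rw [inner_sub_left, inner_smul_left, inner_smul_left, Pv, Qv]
    simp
  have huv : ⟪u, v⟫_ℝ = -(⟪P, Q⟫_ℝ / D ^ 2) := by
    conv_lhs => lhs; rw [hu]
    rw [inner_sub_left, inner_smul_left, inner_smul_left, Pv, Qv]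
    simp
  have hun : ‖u‖ = ‖Q‖ / D := by
    have : ‖u‖ ^ 2 = (‖Q‖ / D) ^ 2 := by rw [huu, div_pow]
    exact (pow_left_inj₀ (norm_nonneg u) (by positivity) two_ne_zero).1 this
  have hvn : ‖v‖ = ‖P‖ / D := by
    have : ‖v‖ ^ 2 = (‖P‖ / D) ^ 2 := by rw [hvv, div_pow]
    exact (pow_left_inj₀ (norm_nonneg v) (by positivity) two_ne_zero).1 this
  constructor
  · rw [huv, ← hcos, hun, hvn]
    field_simp
  · rw [hun, hvn, hD]
    field_simp

variable (b : AffineBasis (Fin 4) ℝ E3)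

/-- gradient of a barycentric coordinate -/
noncomputable def wv (c : Fin 4) : E3 :=
  (InnerProductSpace.toDual ℝ E3).symm (LinearMap.toContinuousLinearMap (lin b c))

lemma inner_wv (c : Fin 4) (z : E3) : ⟪wv b c, z⟫_ℝ = lin b c z := by
  simp [wv]

lemma sum_wv : ∑ c, wv b c = 0 := by
  apply ext_inner_right ℝ
  intro z
  rw [sum_inner, inner_zero_left]
  simp only [inner_wv]
  exact sum_lin b z

lemma wv_ne (c : Fin 4) : wv b c ≠ 0 := by
  intro h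
  apply lin_ne b c
  ext z
  rw [← inner_wv, h]
  simp

/-- the main facts on an edge -/
lemma edge_facts (i : Fin 6) :
    ⟪wv b (ec i), wv b (ed i)⟫_ℝ = -(‖wv b (ec i)‖ * ‖wv b (ed i)‖ * cos (dih b i)) ∧
    ‖wv b (ec i)‖ * ‖wv b (ed i)‖ * sin (dih b i) *
      (‖perp (b (eb i) - b (ea i)) (b (ec i) - b (ea i))‖ *
        ‖perp (b (eb i) - b (ea i)) (b (ed i) - b (ea i))‖ * sin (dih b i)) = 1 := by
  obtain ⟨he, hP, hQ, h0, hπ⟩ := Pool.TetraTile.orth_facts (li b i)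
  obtain ⟨a1, a2, a3⟩ := lin_comb b i 1 0 0
  obtain ⟨b1, b2, b3⟩ := lin_comb b i 0 1 0
  obtain ⟨c1, c2, c3⟩ := lin_comb b i 0 0 1
  simp only [one_smul, zero_smul, add_zero, zero_add] at a1 a2 a3 b1 b2 b3 c1 c2 c3
  exact dual_pair (fun z => ⟨_, _, _, eq_three b i z⟩)
    (by rw [inner_wv]; exact a2) (by rw [inner_wv]; exact b2) (by rw [inner_wv]; exact c2)
    (by rw [inner_wv]; exact a3) (by rw [inner_wv]; exact b3) (by rw [inner_wv]; exact c3)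
    he hP hQ h0 hπ

/-- Gram determinant -/
noncomputable def gram (x y z : E3) : ℝ :=
  ⟪x, x⟫_ℝ * ⟪y, y⟫_ℝ * ⟪z, z⟫_ℝ + 2 * ⟪x, y⟫_ℝ * ⟪y, z⟫_ℝ * ⟪x, z⟫_ℝ
    - ⟪x, x⟫_ℝ * ⟪y, z⟫_ℝ ^ 2 - ⟪y, y⟫_ℝ * ⟪x, z⟫_ℝ ^ 2 - ⟪z, z⟫_ℝ * ⟪x, y⟫_ℝ ^ 2

lemma gram_eq {e : E3} (he : e ≠ 0) (p q : E3) :
    gram e p q = ‖e‖ ^ 2 * (‖perp e p‖ ^ 2 * ‖perp e q‖ ^ 2 - ⟪perp e p, perp e q⟫_ℝ ^ 2) := by
  have hee : ⟪e, e⟫_ℝ ≠ 0 := by simpa using he
  rw [← real_inner_self_eq_norm_sq e, ← real_inner_self_eq_norm_sq (perp e p),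
    ← real_inner_self_eq_norm_sq (perp e q)]
  unfold perp gram
  simp only [inner_sub_left, inner_sub_right, inner_smul_left, inner_smul_right,
    RCLike.conj_to_real]
  have h1 : ⟪p, e⟫_ℝ = ⟪e, p⟫_ℝ := real_inner_comm _ _
  have h2 : ⟪q, e⟫_ℝ = ⟪e, q⟫_ℝ := real_inner_comm _ _
  rw [h1, h2]
  field_simp
  ring

lemma gram_base (i : Fin 6) :
    gram (b (eb i) - b (ea i)) (b (ec i) - b (ea i)) (b (ed i) - b (ea i))
      = gram (b 1 - b 0) (b 2 - b 0) (b 3 - b 0) := by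
  have h10 : ∀ x y : E3, ⟪y, x⟫_ℝ = ⟪x, y⟫_ℝ := fun x y => real_inner_comm _ _
  fin_cases i <;> simp only [ea, eb, ec, ed, Fin.reduceFinMk, Fin.zero_eta, Fin.mk_one,
      Matrix.cons_val, Fin.isValue, Matrix.cons_val_zero, Matrix.cons_val_one, gram,
      inner_sub_left, inner_sub_right, h10 (b 0) (b 1), h10 (b 0) (b 2), h10 (b 0) (b 3),
      h10 (b 1) (b 2), h10 (b 1) (b 3), h10 (b 2) (b 3)] <;> ring

/-- `ln i = K |w_c| |w_d| sin (dih i)` with a constant `K` (six times the volume). -/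
theorem exists_K : ∃ K : ℝ, 0 < K ∧ ∀ i : Fin 6,
    ln b i = K * (‖wv b (ec i)‖ * ‖wv b (ed i)‖ * sin (dih b i)) := by
  have key : ∀ i : Fin 6, 0 < sin (dih b i) ∧ 0 < ln b i ∧
      0 < ‖perp (b (eb i) - b (ea i)) (b (ec i) - b (ea i))‖ *
        ‖perp (b (eb i) - b (ea i)) (b (ed i) - b (ea i))‖ * sin (dih b i) ∧
      (ln b i * (‖perp (b (eb i) - b (ea i)) (b (ec i) - b (ea i))‖ *
        ‖perp (b (eb i) - b (ea i)) (b (ed i) - b (ea i))‖ * sin (dih b i))) ^ 2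
      = gram (b 1 - b 0) (b 2 - b 0) (b 3 - b 0) := by
    intro i
    obtain ⟨he, hP, hQ, h0, hπ⟩ := Pool.TetraTile.orth_facts (li b i)
    have hs : 0 < sin (dih b i) := sin_pos_of_pos_of_lt_pi h0 hπ
    have hP' : 0 < ‖perp (b (eb i) - b (ea i)) (b (ec i) - b (ea i))‖ := norm_pos_iff.2 hP
    have hQ' : 0 < ‖perp (b (eb i) - b (ea i)) (b (ed i) - b (ea i))‖ := norm_pos_iff.2 hQ
    refine ⟨hs, ln_pos b i, by positivity, ?_⟩
    have hl : ln b i = ‖b (eb i) - b (ea i)‖ := by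
      unfold ln; rw [dist_comm, dist_eq_norm]
    have hcos : cos (dih b i) * (‖perp (b (eb i) - b (ea i)) (b (ec i) - b (ea i))‖ *
        ‖perp (b (eb i) - b (ea i)) (b (ed i) - b (ea i))‖)
        = ⟪perp (b (eb i) - b (ea i)) (b (ec i) - b (ea i)),
          perp (b (eb i) - b (ea i)) (b (ed i) - b (ea i))⟫_ℝ :=
      InnerProductGeometry.cos_angle_mul_norm_mul_norm _ _
    rw [← gram_base b i, gram_eq he, hl, ← hcos]
    have hsc := sin_sq_add_cos_sq (dih b i)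
    have : sin (dih b i) ^ 2 = 1 - cos (dih b i) ^ 2 := by linarith
    rw [mul_pow, mul_pow, this]
    ring
  obtain ⟨hs0, hl0, hD0, hK0⟩ := key 0
  set K : ℝ := √(gram (b 1 - b 0) (b 2 - b 0) (b 3 - b 0)) with hK
  have hKi : ∀ i : Fin 6, ln b i * (‖perp (b (eb i) - b (ea i)) (b (ec i) - b (ea i))‖ *
        ‖perp (b (eb i) - b (ea i)) (b (ed i) - b (ea i))‖ * sin (dih b i)) = K := by
    intro i
    obtain ⟨hs, hl, hD, h2⟩ := key i
    rw [hK, ← h2, sqrt_sq (by positivity)]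
  refine ⟨K, ?_, fun i => ?_⟩
  · rw [← hKi 0]; positivity
  · obtain ⟨_, h4⟩ := edge_facts b i
    rw [← hKi i]
    calc ln b i = ln b i * 1 := (mul_one _).symm
      _ = _ := by rw [← h4]; ring

/-- Sum of the products `|w_c| |w_d| cos`. -/
theorem sum_cos : ∑ i : Fin 6, ‖wv b (ec i)‖ * ‖wv b (ed i)‖ * cos (dih b i)
    = (∑ c, ‖wv b c‖ ^ 2) / 2 := by
  have h1 : ⟪∑ c, wv b c, ∑ c, wv b c⟫_ℝ = 0 := by rw [sum_wv]; simp
  rw [Fin.sum_univ_four] at h1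
  simp only [inner_add_left, inner_add_right, real_inner_self_eq_norm_sq] at h1
  have hc : ∀ c d : Fin 4, ⟪wv b d, wv b c⟫_ℝ = ⟪wv b c, wv b d⟫_ℝ := fun c d => real_inner_comm _ _
  have e0 := (edge_facts b 0).1
  have e1 := (edge_facts b 1).1
  have e2 := (edge_facts b 2).1
  have e3 := (edge_facts b 3).1
  have e4 := (edge_facts b 4).1
  have e5 := (edge_facts b 5).1
  simp only [ec, ed, Fin.isValue, Matrix.cons_val, Matrix.cons_val_zero, Matrix.cons_val_one]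
    at e0 e1 e2 e3 e4 e5
  rw [Fin.sum_univ_six, Fin.sum_univ_four]
  simp only [ec, ed, Fin.isValue, Matrix.cons_val, Matrix.cons_val_zero, Matrix.cons_val_one]
  have s1 := hc 0 1
  have s2 := hc 0 2
  have s3 := hc 0 3
  have s4 := hc 1 2
  have s5 := hc 1 3
  have s6 := hc 2 3
  linarith

end Pool.Agent.TetRel
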