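import Pool.Agent.TetRel.Defs

/-! # Tetrahedra that tile space: local volume fractions (helper83)

`hull b` is the tetrahedron with vertices `b 0, .., b 3` (an affine basis of Euclidean 3-space).
`fr b Z` is the fraction of a ball around the origin cut out by the half-spaces
`0 ≤ (b.coord c).linear w`, `c ∈ Z`. -/

set_option autoImplicit false

open MeasureTheory Set Module Metric
open scoped Pointwise

namespace Pool.Agent.TetRel

/-- The 3-dimensional Hausdorff measure (a Haar measure, invariant under isometries). -/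
noncomputable def vol : Measure E3 := μH[((finrank ℝ E3 : ℕ) : ℝ)]

instance : vol.IsAddHaarMeasure := isAddHaarMeasure_hausdorffMeasure

lemma vol_image (φ : E3 ≃ᵢ E3) (s : Set E3) : vol (φ '' s) = vol s :=
  φ.hausdorffMeasure_image _ s

/-- volume as a real number -/
noncomputable def vr (s : Set E3) : ℝ := (vol s).toReal

lemma vr_nonneg (s : Set E3) : 0 ≤ vr s := ENNReal.toReal_nonneg

lemma vr_image (φ : E3 ≃ᵢ E3) (s : Set E3) : vr (φ '' s) = vr s := by
  unfold vr; rw [vol_image]

lemma vol_lt_top {s : Set E3} {r : ℝ} (h : s ⊆ ball (0 : E3) r) : vol s < ⊤ :=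
  (measure_mono h).trans_lt measure_ball_lt_top

lemma vol_lt_top' {s : Set E3} {x : E3} {r : ℝ} (h : s ⊆ ball x r) : vol s < ⊤ :=
  (measure_mono h).trans_lt measure_ball_lt_top

lemma vr_ball_pos (x : E3) {r : ℝ} (hr : 0 < r) : 0 < vr (ball x r) := by
  unfold vr
  exact ENNReal.toReal_pos (measure_ball_pos vol x hr).ne' measure_ball_lt_top.ne

lemma vr_add (x : E3) (s : Set E3) : vr ((fun w => x + w) '' s) = vr s :=
  vr_image (IsometryEquiv.addLeft x) s

lemma vr_ball_eq (x : E3) (r : ℝ) : vr (ball x r) = vr (ball (0 : E3) r) := by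
  rw [← vr_add x (ball (0 : E3) r)]
  congr 1
  ext y
  simp only [mem_ball, mem_image, dist_zero_right]
  constructor
  · intro h
    refine ⟨y - x, ?_, by abel⟩
    rwa [← dist_eq_norm]
  · rintro ⟨w, hw, rfl⟩
    rw [dist_eq_norm]
    simpa using hw

lemma vr_smul (r : ℝ) (hr : 0 < r) (s : Set E3) :
    vr ((fun w => r • w) '' s) = r ^ 3 * vr s := by
  have h := Measure.addHaar_smul vol r s
  have e : r • s = (fun w => r • w) '' s := rfl
  have hf : finrank ℝ E3 = 3 := by simp
  unfold vr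
  rw [← e, h, hf, ENNReal.toReal_mul, ENNReal.toReal_ofReal (abs_nonneg _),
    abs_of_pos (by positivity)]

variable (b : AffineBasis (Fin 4) ℝ E3)

/-- linear part of a barycentric coordinate -/
noncomputable def lin (c : Fin 4) : E3 →ₗ[ℝ] ℝ := (b.coord c).linear

/-- the cone cut out by the faces opposite to the vertices in `Z`, in the ball of radius `r` -/
def W (Z : Finset (Fin 4)) (r : ℝ) : Set E3 := {w | w ∈ ball (0 : E3) r ∧ ∀ c ∈ Z, 0 ≤ lin b c w}

/-- fraction of the ball in the cone -/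
noncomputable def fr (Z : Finset (Fin 4)) : ℝ := vr (W b Z 1) / vr (ball (0 : E3) 1)

lemma W_scale (Z : Finset (Fin 4)) {r : ℝ} (hr : 0 < r) :
    W b Z r = (fun w => r • w) '' W b Z 1 := by
  ext w
  simp only [W, mem_ofPred_eq, mem_image, mem_ball, dist_zero_right]
  constructor
  · rintro ⟨h1, h2⟩
    refine ⟨r⁻¹ • w, ⟨?_, fun c hc => ?_⟩, ?_⟩
    · rw [norm_smul, norm_inv, Real.norm_of_nonneg hr.le, inv_mul_lt_iff₀ hr]; linarith
    · rw [map_smul, smul_eq_mul]; exact mul_nonneg (inv_nonneg.2 hr.le) (h2 c hc)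
    · rw [smul_smul, mul_inv_cancel₀ hr.ne', one_smul]
  · rintro ⟨y, ⟨h1, h2⟩, rfl⟩
    refine ⟨?_, fun c hc => ?_⟩
    · rw [norm_smul, Real.norm_of_nonneg hr.le]; nlinarith
    · rw [map_smul, smul_eq_mul]; exact mul_nonneg hr.le (h2 c hc)

lemma ball_scale {r : ℝ} (hr : 0 < r) :
    vr (ball (0 : E3) r) = r ^ 3 * vr (ball (0 : E3) 1) := by
  rw [← vr_smul r hr]
  congr 1
  ext w
  simp only [mem_image, mem_ball, dist_zero_right]
  constructor
  · intro h
    refine ⟨r⁻¹ • w, ?_, ?_⟩
    · rw [norm_smul, norm_inv, Real.norm_of_nonneg hr.le, inv_mul_lt_iff₀ hr]; linarith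
    · rw [smul_smul, mul_inv_cancel₀ hr.ne', one_smul]
  · rintro ⟨y, h1, rfl⟩
    rw [norm_smul, Real.norm_of_nonneg hr.le]; nlinarith

lemma vr_W (Z : Finset (Fin 4)) {r : ℝ} (hr : 0 < r) :
    vr (W b Z r) = fr b Z * vr (ball (0 : E3) r) := by
  rw [W_scale b Z hr, vr_smul r hr, ball_scale hr, fr]
  have := vr_ball_pos (0 : E3) (r := 1) one_pos
  field_simp

/-- the tetrahedron -/
def hull : Set E3 := convexHull ℝ (range b)

lemma mem_hull (x : E3) : x ∈ hull b ↔ ∀ c, 0 ≤ b.coord c x := by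
  unfold hull; rw [b.convexHull_eq_nonneg_coord]; rfl

lemma mem_int (x : E3) : x ∈ interior (hull b) ↔ ∀ c, 0 < b.coord c x := by
  unfold hull; rw [b.interior_convexHull]; rfl

/-- the vertices whose barycentric coordinate vanishes -/
noncomputable def zs (z : E3) : Finset (Fin 4) := Finset.univ.filter (fun c => b.coord c z = 0)

lemma coord_add (c : Fin 4) (z w : E3) : b.coord c (z + w) = b.coord c z + lin b c w := by
  have := (b.coord c).map_vadd z w
  rw [vadd_eq_add, vadd_eq_add] at this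
  rw [add_comm z w, this, add_comm]; rfl

lemma coord_cont (c : Fin 4) : Continuous (b.coord c) :=
  (b.coord c).continuous_of_finiteDimensional

lemma local_eq {z : E3} (hz : z ∈ hull b) :
    ∃ r0 > 0, ∀ r, 0 < r → r ≤ r0 →
      hull b ∩ ball z r = (fun w => z + w) '' W b (zs b z) r := by
  have key : ∀ c, ∃ r > 0, ∀ y ∈ ball z r, c ∉ zs b z → 0 ≤ b.coord c y := by
    intro c
    by_cases hc : c ∈ zs b z
    · exact ⟨1, one_pos, fun y _ h => absurd hc h⟩
    · have h1 : 0 < b.coord c z := by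
        have := (mem_hull b z).1 hz c
        refine lt_of_le_of_ne this fun h => hc ?_
        simp [zs, h.symm]
      have h2 := (isOpen_lt continuous_const (coord_cont b c)).mem_nhds
        (show z ∈ {y | (0 : ℝ) < b.coord c y} from h1)
      obtain ⟨r, hr, hs⟩ := Metric.mem_nhds_iff.1 h2
      exact ⟨r, hr, fun y hy _ => (hs hy).le⟩
  choose ρ hρ hρ2 using key
  refine ⟨Finset.univ.inf' Finset.univ_nonempty ρ, ?_, ?_⟩
  · rw [gt_iff_lt, Finset.lt_inf'_iff]; exact fun c _ => hρ c
  · intro r hr hr0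
    ext y
    constructor
    · rintro ⟨h1, h2⟩
      refine ⟨y - z, ⟨?_, fun c hc => ?_⟩, by simp⟩
      · rw [mem_ball, dist_zero_right, ← dist_eq_norm]; exact h2
      · have h3 : b.coord c y = b.coord c z + lin b c (y - z) := by
          rw [← coord_add]; congr 1; abel
        have h4 : b.coord c z = 0 := by simpa [zs] using hc
        have := (mem_hull b y).1 h1 c
        rw [h3, h4, zero_add] at this
        exact this
    · rintro ⟨w, ⟨hw1, hw2⟩, rfl⟩
      have hb : z + w ∈ ball z r := by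
        rw [mem_ball, dist_eq_norm]; simpa using hw1
      refine ⟨(mem_hull b _).2 fun c => ?_, hb⟩
      by_cases hc : c ∈ zs b z
      · rw [coord_add]
        have h4 : b.coord c z = 0 := by simpa [zs] using hc
        have := hw2 c hc
        rw [h4, zero_add]; exact this
      · apply hρ2 c _ _ hc
        refine ball_subset_ball (hr0.trans ?_) hb
        exact Finset.inf'_le _ (Finset.mem_univ c)

/-- local volume of a copy of the tetrahedron -/
lemma local_vol (φ : E3 ≃ᵢ E3) {x : E3} (hx : x ∈ φ '' hull b) :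
    ∃ r0 > 0, ∀ r, 0 < r → r ≤ r0 →
      vr ((φ '' hull b) ∩ ball x r) = fr b (zs b (φ.symm x)) * vr (ball (0 : E3) r) := by
  obtain ⟨z, hz, rfl⟩ := hx
  obtain ⟨r0, h0, h⟩ := local_eq b hz
  refine ⟨r0, h0, fun r hr hr0 => ?_⟩
  have e : (φ '' hull b) ∩ ball (φ z) r = φ '' (hull b ∩ ball z r) := by
    ext y
    constructor
    · rintro ⟨⟨u, hu, rfl⟩, hy⟩
      exact ⟨u, ⟨hu, by simpa [mem_ball, φ.dist_eq] using hy⟩, rfl⟩
    · rintro ⟨u, ⟨hu, hu2⟩, rfl⟩
      exact ⟨⟨u, hu, rfl⟩, by simpa [mem_ball, φ.dist_eq] using hu2⟩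
  rw [e, vr_image, h r hr hr0, vr_add, vr_W b _ hr]
  simp

end Pool.Agent.TetRel
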