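import Mathlib

/-! # A one-variable inequality (helper97) -/

set_option autoImplicit false

open Real Set

namespace Pool.Agent.TetRel

noncomputable def gfun (t : ℝ) : ℝ := sin t * (t - 2 * π / 5) + cos t - 1 / 3

lemma gfun_hasDeriv (t : ℝ) : HasDerivAt gfun (cos t * (t - 2 * π / 5)) t := by
  unfold gfun
  have h1 := (hasDerivAt_sin t).mul ((hasDerivAt_id t).sub_const (2 * π / 5))
  have h2 := (h1.add (hasDerivAt_cos t)).sub_const (1 / 3)
  refine h2.congr_deriv ?_
  simp only [id_eq]
  ring

lemma gfun_cont : Continuous gfun := by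
  unfold gfun
  fun_prop

lemma gfun_diff : Differentiable ℝ gfun := fun t => (gfun_hasDeriv t).differentiableAt

/-- `sin t (t - 2π/5) + cos t < 1/3` for `π/3 ≤ t ≤ π`. -/
theorem gfun_neg {t : ℝ} (h1 : π / 3 ≤ t) (h2 : t ≤ π) : gfun t < 0 := by
  have hpi := pi_pos
  have hp3 := pi_gt_three
  have hp4 : π < 3.15 := pi_lt_d2
  have ha : gfun (π / 3) < 0 := by
    unfold gfun
    rw [sin_pi_div_three, cos_pi_div_three]
    have h3 : (1.7 : ℝ) < √3 := by
      rw [lt_sqrt (by norm_num)]; norm_num
    have h4 : (5 : ℝ) < √3 * π := by nlinarith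
    nlinarith
  have hb : gfun (π / 2) < 0 := by
    unfold gfun
    rw [sin_pi_div_two, cos_pi_div_two]
    nlinarith
  rcases le_total t (2 * π / 5) with h | h
  · have hanti : AntitoneOn gfun (Icc (π / 3) (2 * π / 5)) := by
      apply antitoneOn_of_deriv_nonpos (convex_Icc _ _) gfun_cont.continuousOn
        gfun_diff.differentiableOn
      intro x hx
      rw [interior_Icc] at hx
      rw [(gfun_hasDeriv x).deriv]
      have hc : 0 ≤ cos x := cos_nonneg_of_neg_pi_div_two_le_of_le (by linarith [hx.1]) (by linarith [hx.2])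
      exact mul_nonpos_of_nonneg_of_nonpos hc (by linarith [hx.2])
    exact (hanti ⟨le_refl _, by linarith⟩ ⟨h1, h⟩ h1).trans_lt ha
  · rcases le_total t (π / 2) with h' | h'
    · have hmono : MonotoneOn gfun (Icc (2 * π / 5) (π / 2)) := by
        apply monotoneOn_of_deriv_nonneg (convex_Icc _ _) gfun_cont.continuousOn
          gfun_diff.differentiableOn
        intro x hx
        rw [interior_Icc] at hx
        rw [(gfun_hasDeriv x).deriv]
        have hc : 0 ≤ cos x := cos_nonneg_of_neg_pi_div_two_le_of_le (by linarith [hx.1]) (by linarith [hx.2])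
        exact mul_nonneg hc (by linarith [hx.1])
      exact (hmono ⟨h, h'⟩ ⟨by linarith, le_refl _⟩ h').trans_lt hb
    · have hanti : AntitoneOn gfun (Icc (π / 2) π) := by
        apply antitoneOn_of_deriv_nonpos (convex_Icc _ _) gfun_cont.continuousOn
          gfun_diff.differentiableOn
        intro x hx
        rw [interior_Icc] at hx
        rw [(gfun_hasDeriv x).deriv]
        have hc : cos x ≤ 0 := cos_nonpos_of_pi_div_two_le_of_le hx.1.le (by linarith [hx.2])
        exact mul_nonpos_of_nonpos_of_nonneg hc (by linarith [hx.1])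
      exact (hanti ⟨le_refl _, by linarith⟩ ⟨h', h2⟩ h').trans_lt hb

end Pool.Agent.TetRel
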