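import Pool.Agent.TetRel.Tiles

/-! # Edges of the tiles and the pointwise type equation (helper83) -/

set_option autoImplicit false

open MeasureTheory Set Module Metric
open scoped Pointwise

namespace Pool.Agent.TetRel

lemma sum_split {M : Type*} [AddCommMonoid M] (f : Fin 4 → M) (i : Fin 6) :
    ∑ c, f c = f (ea i) + f (eb i) + (f (ec i) + f (ed i)) := by
  fin_cases i <;> simp [ea, eb, ec, ed, Fin.sum_univ_four] <;> abel

lemma all_split {p : Fin 4 → Prop} (i : Fin 6) :
    (∀ c, p c) ↔ p (ea i) ∧ p (eb i) ∧ p (ec i) ∧ p (ed i) := by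
  fin_cases i <;> simp [ea, eb, ec, ed, Fin.forall_fin_succ] <;> tauto

lemma ea_ne_eb (i : Fin 6) : ea i ≠ eb i := by fin_cases i <;> decide
lemma ea_ne_ec (i : Fin 6) : ea i ≠ ec i := by fin_cases i <;> decide
lemma ea_ne_ed (i : Fin 6) : ea i ≠ ed i := by fin_cases i <;> decide
lemma eb_ne_ec (i : Fin 6) : eb i ≠ ec i := by fin_cases i <;> decide
lemma eb_ne_ed (i : Fin 6) : eb i ≠ ed i := by fin_cases i <;> decide
lemma ec_ne_ed (i : Fin 6) : ec i ≠ ed i := by fin_cases i <;> decide

lemma fc_inj : Function.Injective fc := by decide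

lemma small_cases : ∀ Z : Finset (Fin 4), Z.card ≤ 2 →
    Z = ∅ ∨ (∃ c, Z = {c}) ∨ ∃ i, Z = fc i := by decide

lemma big_cases : ∀ Z : Finset (Fin 4), ¬ Z.card ≤ 2 →
    Z = Finset.univ ∨ ∃ c0, c0 ∉ Z ∧ ∀ c, c ≠ c0 → c ∈ Z := by decide

variable (b : AffineBasis (Fin 4) ℝ E3)

/-- volume fraction of the dihedral angle at edge `i` -/
noncomputable def om (i : Fin 6) : ℝ := fr b (fc i)

lemma om_pos (i : Fin 6) : 0 < om b i := by
  refine fr_pos b (c0 := ea i) ?_
  simp only [fc, Finset.mem_insert, Finset.mem_singleton, not_or]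
  exact ⟨ea_ne_ec i, ea_ne_ed i⟩

lemma zs_card {z : E3} (hv : ∀ c, z ≠ b c) : (zs b z).card ≤ 2 := by
  by_contra hcon
  have hs : ∑ c, b.coord c z = 1 := b.sum_coord_apply_eq_one z
  rcases big_cases _ hcon with h | ⟨c0, _, h⟩
  · have : ∑ c, b.coord c z = 0 := Finset.sum_eq_zero fun c _ => by
      have : c ∈ zs b z := by rw [h]; exact Finset.mem_univ c
      simpa [zs] using this
    rw [this] at hs; norm_num at hs
  · have h0 : ∀ c, c ≠ c0 → b.coord c z = 0 := fun c hc => by
      have := h c hc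
      simpa [zs] using this
    have h1 : b.coord c0 z = 1 := by
      rw [← hs]
      exact (Finset.sum_eq_single c0 (fun c _ hc => h0 c hc) (by simp)).symm
    apply hv c0
    have := b.linear_combination_coord_eq_self z
    rw [← this, Finset.sum_eq_single c0 (fun c _ hc => by rw [h0 c hc, zero_smul]) (by simp),
      h1, one_smul]

/-- the open edge number `i` -/
def Eo (i : Fin 6) : Set E3 := {z | z ∈ hull b ∧ zs b z = fc i}

lemma Eo_meas (i : Fin 6) : MeasurableSet (Eo b i) := by
  have : Eo b i = hull b ∩ ⋂ c : Fin 4, {z | b.coord c z = 0 ↔ c ∈ fc i} := by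
    ext z
    simp only [Eo, mem_ofPred_eq, mem_inter_iff, mem_iInter, Finset.ext_iff, zs,
      Finset.mem_filter, Finset.mem_univ, true_and]
  rw [this]
  refine (hull_compact b).isClosed.measurableSet.inter (MeasurableSet.iInter fun c => ?_)
  by_cases hc : c ∈ fc i
  · simp only [hc, iff_true]
    exact (isClosed_eq (coord_cont b c) continuous_const).measurableSet
  · simp only [hc, iff_false]
    exact (isClosed_eq (coord_cont b c) continuous_const).measurableSet.compl

/-- edge length -/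
noncomputable def ln (i : Fin 6) : ℝ := dist (b (ea i)) (b (eb i))

lemma ln_pos (i : Fin 6) : 0 < ln b i :=
  dist_pos.2 fun h => ea_ne_eb i (b.ind.injective h)

lemma Eo_sub (i : Fin 6) : Eo b i ⊆ segment ℝ (b (ea i)) (b (eb i)) := by
  rintro z ⟨hz, hzs⟩
  have hc : b.coord (ec i) z = 0 := by
    have : ec i ∈ zs b z := by rw [hzs]; simp [fc]
    simpa [zs] using this
  have hd : b.coord (ed i) z = 0 := by
    have : ed i ∈ zs b z := by rw [hzs]; simp [fc]
    simpa [zs] using this
  have hs : ∑ c, b.coord c z = 1 := b.sum_coord_apply_eq_one z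
  have hl := b.linear_combination_coord_eq_self z
  rw [sum_split _ i, hc, hd, add_zero, add_zero] at hs
  rw [sum_split _ i, hc, hd, zero_smul, zero_smul, add_zero, add_zero] at hl
  exact ⟨_, _, (mem_hull b z).1 hz _, (mem_hull b z).1 hz _, hs, hl⟩

lemma sub_Eo (i : Fin 6) :
    segment ℝ (b (ea i)) (b (eb i)) ⊆ Eo b i ∪ ({b (ea i), b (eb i)} : Set E3) := by
  rintro z ⟨s, t, hs, ht, hst, rfl⟩
  by_cases hs0 : s = 0
  · subst hs0
    have : t = 1 := by linarith
    subst this
    right; simp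
  by_cases ht0 : t = 0
  · subst ht0
    have : s = 1 := by linarith
    subst this
    right; simp
  left
  have hco : ∀ c, b.coord c (s • b (ea i) + t • b (eb i)) =
      s * b.coord c (b (ea i)) + t * b.coord c (b (eb i)) := by
    intro c
    have e : s • b (ea i) + t • b (eb i) = AffineMap.lineMap (b (ea i)) (b (eb i)) t := by
      rw [AffineMap.lineMap_apply_module]
      congr 2; linarith
    rw [e, AffineMap.apply_lineMap, AffineMap.lineMap_apply_module, smul_eq_mul, smul_eq_mul]
    congr 2; linarith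
  have h1 : b.coord (ea i) (s • b (ea i) + t • b (eb i)) = s := by
    rw [hco, b.coord_apply_eq, b.coord_apply_ne (ea_ne_eb i)]; ring
  have h2 : b.coord (eb i) (s • b (ea i) + t • b (eb i)) = t := by
    rw [hco, b.coord_apply_eq, b.coord_apply_ne (ea_ne_eb i).symm]; ring
  have h3 : b.coord (ec i) (s • b (ea i) + t • b (eb i)) = 0 := by
    rw [hco, b.coord_apply_ne (ea_ne_ec i).symm, b.coord_apply_ne (eb_ne_ec i).symm]; ring
  have h4 : b.coord (ed i) (s • b (ea i) + t • b (eb i)) = 0 := by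
    rw [hco, b.coord_apply_ne (ea_ne_ed i).symm, b.coord_apply_ne (eb_ne_ed i).symm]; ring
  refine ⟨(mem_hull b _).2 ((all_split i).2 ⟨?_, ?_, ?_, ?_⟩), ?_⟩
  · rw [h1]; exact hs
  · rw [h2]; exact ht
  · rw [h3]
  · rw [h4]
  · rw [Finset.ext_iff]
    refine (all_split i).2 ⟨?_, ?_, ?_, ?_⟩
    · simp [zs, h1, hs0, fc, ea_ne_ec, ea_ne_ed]
    · simp [zs, h2, ht0, fc, eb_ne_ec, eb_ne_ed]
    · simp [zs, h3, fc]
    · simp [zs, h4, fc]

instance : NullSingletonClass (μH[1] : Measure E3) :=
  Measure.nullSingletonClass_hausdorff E3 one_pos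

lemma H1_Eo (i : Fin 6) : (μH[1] : Measure E3) (Eo b i) = ENNReal.ofReal (ln b i) := by
  have hseg : (μH[1] : Measure E3) (segment ℝ (b (ea i)) (b (eb i))) = ENNReal.ofReal (ln b i) := by
    rw [hausdorffMeasure_segment, edist_dist]; rfl
  refine le_antisymm ?_ ?_
  · rw [← hseg]; exact measure_mono (Eo_sub b i)
  · rw [← hseg]
    have h0 : (μH[1] : Measure E3) ({b (ea i), b (eb i)} : Set E3) = 0 :=
      (Set.toFinite _).measure_zero _
    calc (μH[1] : Measure E3) (segment ℝ (b (ea i)) (b (eb i)))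
        ≤ (μH[1] : Measure E3) (Eo b i ∪ ({b (ea i), b (eb i)} : Set E3)) :=
          measure_mono (sub_Eo b i)
      _ ≤ (μH[1] : Measure E3) (Eo b i) + (μH[1] : Measure E3) ({b (ea i), b (eb i)} : Set E3) :=
          measure_union_le _ _
      _ = (μH[1] : Measure E3) (Eo b i) := by rw [h0, add_zero]

/-- the types: how many tiles of each kind of edge may meet around an edge -/
def types : Set (Fin 6 → ℕ) := {n | ∑ i, (n i : ℝ) * om b i = 1}

lemma fr_cases {Z : Finset (Fin 4)} (hZ : Z.card ≤ 2) :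
    fr b Z = (if Z = ∅ then 1 else 0) + (if Z.card = 1 then 1 else 0) / 2 +
      ∑ i, (if Z = fc i then 1 else 0) * om b i := by
  rcases small_cases Z hZ with rfl | ⟨c, rfl⟩ | ⟨i, rfl⟩
  · have : ∀ i, (∅ : Finset (Fin 4)) ≠ fc i := by decide
    simp [fr_empty, this]
  · have h1 : ∀ i, ({c} : Finset (Fin 4)) ≠ fc i := by revert c; decide
    simp [fr_single, h1]
  · have h1 : fc i ≠ ∅ := by revert i; decide
    have h2 : (fc i).card ≠ 1 := by revert i; decide
    have h3 : ∀ j, (fc i = fc j) ↔ (j = i) := fun j => ⟨fun h => (fc_inj h).symm, fun h => h ▸ rfl⟩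
    simp [h1, h2, h3, om]

variable {b}

/-- the pointwise type equation, dual form -/
lemma type_nonneg {ι : Type*} (F : Finset ι) (Z : ι → Finset (Fin 4))
    (hZ : ∀ A ∈ F, (Z A).card ≤ 2) (hsum : ∑ A ∈ F, fr b (Z A) = 1)
    {y : Fin 6 → ℝ} (hy : ∀ n ∈ types b, 0 ≤ ∑ i, y i * n i) :
    0 ≤ ∑ A ∈ F, ∑ i, y i * (if Z A = fc i then (1 : ℝ) else 0) := by
  classical
  let cnt : Fin 6 → ℕ := fun i => (F.filter fun A => Z A = fc i).card
  have hcnt : ∀ i, ∑ A ∈ F, (if Z A = fc i then (1 : ℝ) else 0) = cnt i := by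
    intro i; simp [cnt, Finset.sum_boole]
  let a : ℕ := (F.filter fun A => Z A = ∅).card
  let f : ℕ := (F.filter fun A => (Z A).card = 1).card
  have e1 : (a : ℝ) + (f : ℝ) / 2 + ∑ i, (cnt i : ℝ) * om b i = 1 := by
    rw [← hsum, Finset.sum_congr rfl fun A hA => fr_cases b (hZ A hA), Finset.sum_add_distrib,
      Finset.sum_add_distrib, ← Finset.sum_div, Finset.sum_boole, Finset.sum_boole,
      Finset.sum_comm]
    simp only [← Finset.sum_mul, hcnt]
    rfl
  have e2 : ∑ A ∈ F, ∑ i, y i * (if Z A = fc i then (1 : ℝ) else 0) = ∑ i, y i * cnt i := by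
    rw [Finset.sum_comm]
    refine Finset.sum_congr rfl fun i _ => ?_
    rw [← Finset.mul_sum, hcnt]
  rw [e2]
  by_cases h0 : ∀ i, cnt i = 0
  · simp [h0]
  · push Not at h0
    obtain ⟨j, hj⟩ := h0
    have hT : 0 < ∑ i, (cnt i : ℝ) * om b i := by
      refine lt_of_lt_of_le (b := (cnt j : ℝ) * om b j) ?_ ?_
      · exact mul_pos (by exact_mod_cast Nat.pos_of_ne_zero hj) (om_pos b j)
      · exact Finset.single_le_sum (f := fun i => (cnt i : ℝ) * om b i)
          (fun i _ => mul_nonneg (Nat.cast_nonneg _) (om_pos b i).le) (Finset.mem_univ j)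
    have ha : a = 0 := by
      by_contra hne
      have : (1 : ℝ) ≤ a := by exact_mod_cast Nat.one_le_iff_ne_zero.2 hne
      have : (0 : ℝ) ≤ f := Nat.cast_nonneg f
      linarith
    have hf : f = 0 ∨ f = 1 := by
      have h1 : (f : ℝ) < 2 := by
        have : (0 : ℝ) ≤ a := Nat.cast_nonneg a
        linarith
      have : f < 2 := by exact_mod_cast h1
      omega
    rw [ha] at e1
    rcases hf with hf | hf
    · rw [hf] at e1
      have : cnt ∈ types b := by
        change ∑ i, (cnt i : ℝ) * om b i = 1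
        simpa using e1
      exact hy cnt this
    · rw [hf] at e1
      have : (fun i => 2 * cnt i) ∈ types b := by
        change ∑ i, ((2 * cnt i : ℕ) : ℝ) * om b i = 1
        push_cast
        simp only [mul_assoc, ← Finset.mul_sum]
        norm_num at e1
        linarith
      have h2 := hy _ this
      push_cast at h2
      have h3 : ∑ i, y i * (2 * (cnt i : ℝ)) = 2 * ∑ i, y i * (cnt i : ℝ) := by
        rw [Finset.mul_sum]; exact Finset.sum_congr rfl fun i _ => by ring
      rw [h3] at h2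
      linarith

end Pool.Agent.TetRel
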