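import Pool.Agent.TetRel.Basic

/-! # Volume fractions: values and Gaddum's inequality (helper83) -/

set_option autoImplicit false

open MeasureTheory Set Module Metric
open scoped Pointwise

namespace Pool.Agent.TetRel

variable (b : AffineBasis (Fin 4) ℝ E3)

lemma lin_cont (c : Fin 4) : Continuous (lin b c) :=
  (lin b c).continuous_of_finiteDimensional

lemma sum_lin (w : E3) : ∑ c, lin b c w = 0 := by
  have h1 : ∑ c, b.coord c (0 + w) = 1 := b.sum_coord_apply_eq_one _
  have h2 : ∑ c, b.coord c (0 : E3) = 1 := b.sum_coord_apply_eq_one _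
  simp only [coord_add, Finset.sum_add_distrib, h2] at h1
  linarith

/-- centroid minus a vertex -/
lemma exists_dir (c0 : Fin 4) : ∃ w : E3, ∀ c, c ≠ c0 → 0 < lin b c w := by
  let p : E3 := Finset.univ.affineCombination ℝ b (fun _ => (1 / 4 : ℝ))
  have hs : ∑ _c : Fin 4, (1 / 4 : ℝ) = 1 := by norm_num
  have hp : ∀ c, b.coord c p = 1 / 4 := fun c =>
    b.coord_apply_combination_of_mem (Finset.mem_univ c) hs
  refine ⟨p - b c0, fun c hc => ?_⟩
  have h1 : b.coord c p = b.coord c (b c0) + lin b c (p - b c0) := by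
    rw [← coord_add]; congr 1; abel
  rw [hp, b.coord_apply_ne hc] at h1
  linarith

lemma exists_neg (c0 : Fin 4) : ∃ w : E3, (∀ c, c ≠ c0 → 0 < lin b c w) ∧ lin b c0 w < 0 := by
  obtain ⟨w, hw⟩ := exists_dir b c0
  refine ⟨w, hw, ?_⟩
  have h := sum_lin b w
  have h2 : 0 < ∑ c ∈ Finset.univ.erase c0, lin b c w := by
    apply Finset.sum_pos
    · intro c hc; exact hw c (Finset.ne_of_mem_erase hc)
    · apply Finset.card_pos.1
      rw [Finset.card_erase_of_mem (Finset.mem_univ _)]; simp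
  rw [← Finset.add_sum_erase _ _ (Finset.mem_univ c0)] at h
  linarith

lemma lin_ne (c : Fin 4) : lin b c ≠ 0 := by
  obtain ⟨w, _, h⟩ := exists_neg b c
  intro h0; rw [h0] at h; simp at h

lemma vol_ker (c : Fin 4) : vol {w | lin b c w = 0} = 0 := by
  have h : ({w | lin b c w = 0} : Set E3) = (LinearMap.ker (lin b c) : Set E3) := by
    ext w; simp
  rw [h]
  apply Measure.addHaar_submodule
  intro h0
  exact lin_ne b c (LinearMap.ker_eq_top.1 h0)

lemma W_sub (Z : Finset (Fin 4)) (r : ℝ) : W b Z r ⊆ ball (0 : E3) r := fun _ h => h.1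

lemma W_meas (Z : Finset (Fin 4)) (r : ℝ) : MeasurableSet (W b Z r) := by
  have : W b Z r = ball (0 : E3) r ∩ ⋂ c ∈ Z, {w | 0 ≤ lin b c w} := by
    ext w; simp [W]
  rw [this]
  refine measurableSet_ball.inter ?_
  refine Finset.measurableSet_biInter _ fun c _ => ?_
  exact (isClosed_le continuous_const (lin_cont b c)).measurableSet

lemma vr_mono {s t : Set E3} {r : ℝ} (h : s ⊆ t) (ht : t ⊆ ball (0 : E3) r) : vr s ≤ vr t := by
  unfold vr
  exact ENNReal.toReal_mono (vol_lt_top ht).ne (measure_mono h)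

lemma fr_empty : fr b ∅ = 1 := by
  unfold fr
  have : W b ∅ 1 = ball (0 : E3) 1 := by ext w; simp [W]
  rw [this]
  exact div_self (vr_ball_pos (0 : E3) one_pos).ne'

lemma vr_pos_of_open {s : Set E3} (ho : IsOpen s) (hn : s.Nonempty) {r : ℝ}
    (hs : s ⊆ ball (0 : E3) r) : 0 < vr s := by
  unfold vr
  exact ENNReal.toReal_pos (ho.measure_pos vol hn).ne' (vol_lt_top hs).ne

lemma fr_pos {Z : Finset (Fin 4)} {c0 : Fin 4} (h : c0 ∉ Z) : 0 < fr b Z := by
  obtain ⟨w, hw⟩ := exists_dir b c0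
  unfold fr
  refine div_pos ?_ (vr_ball_pos (0 : E3) one_pos)
  let U : Set E3 := {w | w ∈ ball (0 : E3) 1 ∧ ∀ c ∈ Z, 0 < lin b c w}
  have hU : IsOpen U := by
    have : U = ball (0 : E3) 1 ∩ ⋂ c ∈ Z, {w | 0 < lin b c w} := by
      ext w; simp [U]
    rw [this]
    refine isOpen_ball.inter ?_
    exact isOpen_biInter_finset fun c _ => isOpen_lt continuous_const (lin_cont b c)
  have hne : U.Nonempty := by
    have hd : 0 < ‖w‖ + 1 := by positivity
    refine ⟨(‖w‖ + 1)⁻¹ • w, ?_, fun c hc => ?_⟩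
    · rw [mem_ball, dist_zero_right, norm_smul, norm_inv, Real.norm_of_nonneg hd.le,
        inv_mul_lt_iff₀ hd]; linarith
    · rw [map_smul, smul_eq_mul]
      exact mul_pos (inv_pos.2 hd) (hw c fun h' => h (h' ▸ hc))
  have h1 : 0 < vr U := vr_pos_of_open hU hne (r := 1) fun _ h => h.1
  refine h1.trans_le (vr_mono (r := 1) ?_ (W_sub b Z 1))
  exact fun w hw => ⟨hw.1, fun c hc => (hw.2 c hc).le⟩

lemma vr_neg (s : Set E3) : vr ((fun w => -w) '' s) = vr s :=
  vr_image (IsometryEquiv.neg E3) s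

lemma fr_single (c : Fin 4) : fr b {c} = 1 / 2 := by
  let N : Set E3 := (fun w => -w) '' W b {c} 1
  have hN : N = {w | w ∈ ball (0 : E3) 1 ∧ lin b c w ≤ 0} := by
    ext w
    simp only [N, mem_image, W, mem_ofPred_eq, Finset.mem_singleton, forall_eq]
    constructor
    · rintro ⟨y, ⟨h1, h2⟩, rfl⟩
      exact ⟨by simpa using h1, by simpa using h2⟩
    · rintro ⟨h1, h2⟩
      exact ⟨-w, ⟨by simpa using h1, by simpa using h2⟩, by simp⟩
  have h1 : vol (W b {c} 1 ∪ N) = vol (W b {c} 1) + vol N := by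
    apply measure_union₀
    · rw [hN]
      have : ({w | w ∈ ball (0 : E3) 1 ∧ lin b c w ≤ 0} : Set E3) =
          ball (0 : E3) 1 ∩ {w | lin b c w ≤ 0} := rfl
      rw [this]
      exact (measurableSet_ball.inter
        (isClosed_le (lin_cont b c) continuous_const).measurableSet).nullMeasurableSet
    · refine measure_mono_null ?_ (vol_ker b c)
      rintro w ⟨h1, h2⟩
      rw [hN] at h2
      exact le_antisymm h2.2 (h1.2 c (Finset.mem_singleton_self c))
  have h2 : W b {c} 1 ∪ N = ball (0 : E3) 1 := by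
    rw [hN]
    ext w
    simp only [W, mem_union, mem_ofPred_eq, Finset.mem_singleton, forall_eq]
    constructor
    · rintro (h | h)
      exacts [h.1, h.1]
    · intro h
      rcases le_total 0 (lin b c w) with h' | h'
      exacts [Or.inl ⟨h, h'⟩, Or.inr ⟨h, h'⟩]
  have h3 : vr N = vr (W b {c} 1) := vr_neg _
  have h4 : vr (ball (0 : E3) 1) = vr (W b {c} 1) + vr N := by
    rw [← h2]; unfold vr
    rw [h1, ENNReal.toReal_add]
    · exact (vol_lt_top (W_sub b _ 1)).ne
    · rw [hN]; exact (vol_lt_top (r := 1) fun _ h => h.1).ne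
  unfold fr
  have h5 := vr_ball_pos (0 : E3) (r := 1) one_pos
  rw [h3] at h4
  rw [div_eq_div_iff h5.ne' two_ne_zero]
  linarith

lemma fr_anti {Z Z' : Finset (Fin 4)} (h : Z ⊆ Z') : fr b Z' ≤ fr b Z := by
  unfold fr
  have h5 := vr_ball_pos (0 : E3) (r := 1) one_pos
  rw [div_le_div_iff_of_pos_right h5]
  exact vr_mono (r := 1) (fun w hw => ⟨hw.1, fun c hc => hw.2 c (h hc)⟩) (W_sub b Z 1)

/-- The faces through the edge number `i` (edges: 01, 02, 03, 12, 13, 23), given by their
opposite vertices. -/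
def fc (i : Fin 6) : Finset (Fin 4) := {ec i, ed i}

lemma counting (p : Fin 4 → Prop) [DecidablePred p] (h : ∃ c, p c) :
    (∑ c, (if p c then (1 : ℝ) else 0)) + (if ∀ c ∈ ({0, 1, 2} : Finset (Fin 4)), p c then 1 else 0)
      ≤ 1 + ∑ i, (if ∀ c ∈ fc i, p c then (1 : ℝ) else 0) := by
  simp only [fc, ec, ed, Fin.sum_univ_four, Fin.sum_univ_six, Finset.mem_insert, Finset.mem_singleton,
    forall_eq_or_imp, forall_eq, Matrix.cons_val]
  obtain ⟨c, hc⟩ := h
  by_cases h0 : p 0 <;> by_cases h1 : p 1 <;> by_cases h2 : p 2 <;> by_cases h3 : p 3 <;>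
    simp [h0, h1, h2, h3] <;> norm_num

/-- Gaddum: the six dihedral angles of a tetrahedron have sum more than a full angle. -/
lemma gaddum : 1 < ∑ i, fr b (fc i) := by
  classical
  let μ : Measure E3 := vol.restrict (ball (0 : E3) 1)
  have : IsFiniteMeasure μ := ⟨by
    rw [Measure.restrict_apply_univ]; exact measure_ball_lt_top⟩
  have hint : ∀ Z : Finset (Fin 4), ∫ w, (if ∀ c ∈ Z, 0 ≤ lin b c w then (1 : ℝ) else 0) ∂μ
      = vr (W b Z 1) := by
    intro Z
    have hm : MeasurableSet {w : E3 | ∀ c ∈ Z, 0 ≤ lin b c w} := by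
      have : {w : E3 | ∀ c ∈ Z, 0 ≤ lin b c w} = ⋂ c ∈ Z, {w | 0 ≤ lin b c w} := by
        ext w; simp
      rw [this]
      refine Finset.measurableSet_biInter _ fun c _ => ?_
      exact (isClosed_le continuous_const (lin_cont b c)).measurableSet
    have : (fun w : E3 => (if ∀ c ∈ Z, 0 ≤ lin b c w then (1 : ℝ) else 0)) =
        {w : E3 | ∀ c ∈ Z, 0 ≤ lin b c w}.indicator 1 := by
      ext w; simp [indicator]
    rw [this, integral_indicator_one hm]
    unfold vr Measure.real
    rw [Measure.restrict_apply hm]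
    congr 2
    ext w; simp [W, and_comm]
  have hI : ∀ Z : Finset (Fin 4),
      Integrable (fun w : E3 => (if ∀ c ∈ Z, 0 ≤ lin b c w then (1 : ℝ) else 0)) μ := by
    intro Z
    have hm : MeasurableSet {w : E3 | ∀ c ∈ Z, 0 ≤ lin b c w} := by
      have : {w : E3 | ∀ c ∈ Z, 0 ≤ lin b c w} = ⋂ c ∈ Z, {w | 0 ≤ lin b c w} := by
        ext w; simp
      rw [this]
      refine Finset.measurableSet_biInter _ fun c _ => ?_
      exact (isClosed_le continuous_const (lin_cont b c)).measurableSet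
    have : (fun w : E3 => (if ∀ c ∈ Z, 0 ≤ lin b c w then (1 : ℝ) else 0)) =
        {w : E3 | ∀ c ∈ Z, 0 ≤ lin b c w}.indicator (fun _ => 1) := by
      ext w; simp [indicator]
    rw [this]
    exact (integrable_const 1).indicator hm
  have hpt : ∀ w : E3, (∑ c, (if ∀ d ∈ ({c} : Finset (Fin 4)), 0 ≤ lin b d w then (1 : ℝ) else 0)) +
      (if ∀ c ∈ ({0, 1, 2} : Finset (Fin 4)), 0 ≤ lin b c w then (1 : ℝ) else 0)
      ≤ (if ∀ c ∈ (∅ : Finset (Fin 4)), 0 ≤ lin b c w then (1 : ℝ) else 0) +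
        ∑ i, (if ∀ c ∈ fc i, 0 ≤ lin b c w then (1 : ℝ) else 0) := by
    intro w
    have := counting (fun c => 0 ≤ lin b c w) (by
      by_contra hcon
      push Not at hcon
      have h1 := sum_lin b w
      have h2 : ∑ c, lin b c w < 0 := Finset.sum_neg (fun c _ => hcon c) Finset.univ_nonempty
      linarith)
    simpa using this
  have hle := integral_mono (μ := μ)
    (f := fun w => (∑ c, (if ∀ d ∈ ({c} : Finset (Fin 4)), 0 ≤ lin b d w then (1 : ℝ) else 0)) +
      (if ∀ c ∈ ({0, 1, 2} : Finset (Fin 4)), 0 ≤ lin b c w then (1 : ℝ) else 0))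
    (g := fun w => (if ∀ c ∈ (∅ : Finset (Fin 4)), 0 ≤ lin b c w then (1 : ℝ) else 0) +
        ∑ i, (if ∀ c ∈ fc i, 0 ≤ lin b c w then (1 : ℝ) else 0))
    ((integrable_finsetSum _ fun c _ => hI {c}).add (hI _))
    ((hI _).add (integrable_finsetSum _ fun i _ => hI (fc i))) hpt
  rw [integral_add (integrable_finsetSum _ fun c _ => hI {c}) (hI _),
    integral_add (hI _) (integrable_finsetSum _ fun i _ => hI (fc i)),
    integral_finsetSum _ (fun c _ => hI {c}), integral_finsetSum _ (fun i _ => hI (fc i))] at hle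
  simp only [hint] at hle
  have h5 := vr_ball_pos (0 : E3) (r := 1) one_pos
  have hfr : ∀ Z, vr (W b Z 1) = fr b Z * vr (ball (0 : E3) 1) := fun Z => vr_W b Z one_pos
  simp only [hfr, fr_single, fr_empty] at hle
  rw [← Finset.sum_mul, ← Finset.sum_mul, ← add_mul, ← add_mul,
    mul_le_mul_iff_left₀ h5] at hle
  have h6 : 0 < fr b {0, 1, 2} := fr_pos b (c0 := 3) (by decide)
  simp only [Finset.sum_const, Finset.card_univ, Fintype.card_fin] at hle
  norm_num at hle
  linarith

end Pool.Agent.TetRel
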