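import Mathlib

/-! # The one-variable inequality for the sixty degree bound (helper46) -/

set_option autoImplicit false

open Real Set

namespace Pool.Agent.TetRel

/-- the function of one dihedral angle -/
noncomputable def gg (t : ℝ) : ℝ := sin t * (t - 2 * π / 5) + cos t - 1 / 3

lemma gg_hasDeriv (t : ℝ) : HasDerivAt gg (cos t * (t - 2 * π / 5)) t := by
  have h1 : HasDerivAt (fun t => sin t * (t - 2 * π / 5))
      (cos t * (t - 2 * π / 5) + sin t * 1) t :=
    (hasDerivAt_sin t).mul ((hasDerivAt_id' t).sub_const _)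
  have h2 := ((h1.add (hasDerivAt_cos t)).sub_const (1 / 3))
  have e : cos t * (t - 2 * π / 5) = cos t * (t - 2 * π / 5) + sin t * 1 + -sin t := by ring
  rw [e]
  exact h2

lemma gg_cont : Continuous gg := by unfold gg; fun_prop

lemma gg_deriv (t : ℝ) : deriv gg t = cos t * (t - 2 * π / 5) := (gg_hasDeriv t).deriv

lemma gg_start : gg (π / 3) < 0 := by
  unfold gg
  rw [sin_pi_div_three, cos_pi_div_three]
  have h1 : (3 : ℝ) < π := pi_gt_three
  have h2 : (1.7 : ℝ) < √3 := by
    rw [lt_sqrt (by norm_num)]; norm_num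
  nlinarith [mul_pos (sub_pos.2 h1) (sub_pos.2 h2)]

lemma gg_mid : gg (π / 2) < 0 := by
  unfold gg
  rw [sin_pi_div_two, cos_pi_div_two]
  have h1 : π < 3.15 := pi_lt_d2
  linarith

theorem gg_neg {t : ℝ} (h1 : π / 3 ≤ t) (h2 : t ≤ π) : gg t < 0 := by
  have hpi := pi_pos
  rcases le_total t (2 * π / 5) with ha | ha
  · have hanti : AntitoneOn gg (Icc (π / 3) (2 * π / 5)) := by
      apply antitoneOn_of_deriv_nonpos (convex_Icc _ _) gg_cont.continuousOn
      · exact fun x _ => (gg_hasDeriv x).differentiableAt.differentiableWithinAt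
      · intro x hx
        rw [interior_Icc] at hx
        rw [gg_deriv]
        apply mul_nonpos_of_nonneg_of_nonpos
        · exact cos_nonneg_of_mem_Icc ⟨by linarith [hx.1], by linarith [hx.2]⟩
        · linarith [hx.2]
    exact (hanti ⟨le_refl _, by linarith⟩ ⟨h1, ha⟩ h1).trans_lt gg_start
  rcases le_total t (π / 2) with hb | hb
  · have hmono : MonotoneOn gg (Icc (2 * π / 5) (π / 2)) := by
      apply monotoneOn_of_deriv_nonneg (convex_Icc _ _) gg_cont.continuousOn
      · exact fun x _ => (gg_hasDeriv x).differentiableAt.differentiableWithinAt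
      · intro x hx
        rw [interior_Icc] at hx
        rw [gg_deriv]
        apply mul_nonneg
        · exact cos_nonneg_of_mem_Icc ⟨by linarith [hx.1], by linarith [hx.2]⟩
        · linarith [hx.1]
    exact (hmono ⟨ha, hb⟩ ⟨by linarith, le_refl _⟩ hb).trans_lt gg_mid
  · have hanti : AntitoneOn gg (Icc (π / 2) π) := by
      apply antitoneOn_of_deriv_nonpos (convex_Icc _ _) gg_cont.continuousOn
      · exact fun x _ => (gg_hasDeriv x).differentiableAt.differentiableWithinAt
      · intro x hx
        rw [interior_Icc] at hx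
        rw [gg_deriv]
        apply mul_nonpos_of_nonpos_of_nonneg
        · exact cos_nonpos_of_pi_div_two_le_of_le hx.1.le (by linarith [hx.2])
        · linarith [hx.1]
    exact (hanti ⟨le_refl _, by linarith⟩ ⟨hb, h2⟩ hb).trans_lt gg_mid

end Pool.Agent.TetRel
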