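import Pool.Agent.TetRel.SixtyG
import Pool.Agent.TetRel.Defs

/-! # Metric identities for the sixty degree bound (helper46) -/

set_option autoImplicit false

open Real Set InnerProductGeometry
open scoped InnerProductSpace

namespace Pool.Agent.TetRel

lemma inner_perp {u : E3} (hu : u ≠ 0) (p q : E3) :
    ⟪u, u⟫_ℝ * ⟪perp u p, perp u q⟫_ℝ = ⟪u, u⟫_ℝ * ⟪p, q⟫_ℝ - ⟪u, p⟫_ℝ * ⟪u, q⟫_ℝ := by
  have h0 : ⟪u, u⟫_ℝ ≠ 0 := by simpa using hu
  unfold perp
  rw [inner_sub_left, inner_sub_right, inner_sub_right, inner_smul_left, inner_smul_right,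
    inner_smul_right, inner_smul_left, real_inner_comm u p]
  simp only [conj_trivial]
  field_simp
  ring

variable (v : Fin 4 → E3)

/-- Gram entries with base point `v 0` -/
noncomputable def gm (j k : Fin 4) : ℝ := ⟪v j - v 0, v k - v 0⟫_ℝ

lemma gm_comm (j k : Fin 4) : gm v j k = gm v k j := real_inner_comm _ _

lemma gm_zero_left (k : Fin 4) : gm v 0 k = 0 := by simp [gm]

lemma gm_zero_right (k : Fin 4) : gm v k 0 = 0 := by simp [gm]

lemma inner_diff (j k l : Fin 4) :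
    ⟪v j - v k, v l - v k⟫_ℝ = gm v j l - gm v j k - gm v k l + gm v k k := by
  have h1 : v j - v k = (v j - v 0) - (v k - v 0) := by abel
  have h2 : v l - v k = (v l - v 0) - (v k - v 0) := by abel
  have key : ∀ x y z : E3,
      ⟪x - z, y - z⟫_ℝ = ⟪x, y⟫_ℝ - ⟪x, z⟫_ℝ - ⟪z, y⟫_ℝ + ⟪z, z⟫_ℝ := by
    intro x y z
    rw [inner_sub_left, inner_sub_right, inner_sub_right]
    ring
  rw [h1, h2]
  exact key _ _ _

/-- `uu i` is the square of the length of edge `i`, and so on -/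
noncomputable def uu (i : Fin 6) : ℝ := ⟪v (eb i) - v (ea i), v (eb i) - v (ea i)⟫_ℝ
noncomputable def up (i : Fin 6) : ℝ := ⟪v (eb i) - v (ea i), v (ec i) - v (ea i)⟫_ℝ
noncomputable def uq (i : Fin 6) : ℝ := ⟪v (eb i) - v (ea i), v (ed i) - v (ea i)⟫_ℝ
noncomputable def pp (i : Fin 6) : ℝ := ⟪v (ec i) - v (ea i), v (ec i) - v (ea i)⟫_ℝ
noncomputable def pq (i : Fin 6) : ℝ := ⟪v (ec i) - v (ea i), v (ed i) - v (ea i)⟫_ℝ
noncomputable def qq (i : Fin 6) : ℝ := ⟪v (ed i) - v (ea i), v (ed i) - v (ea i)⟫_ℝ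

/-- four times the square of the area of the face opposite to the vertex -/
noncomputable def ar2 : Fin 4 → ℝ :=
  ![(gm v 2 2 - 2 * gm v 1 2 + gm v 1 1) * (gm v 3 3 - 2 * gm v 1 3 + gm v 1 1)
      - (gm v 2 3 - gm v 1 2 - gm v 1 3 + gm v 1 1) ^ 2,
    gm v 2 2 * gm v 3 3 - gm v 2 3 ^ 2,
    gm v 1 1 * gm v 3 3 - gm v 1 3 ^ 2,
    gm v 1 1 * gm v 2 2 - gm v 1 2 ^ 2]

/-- the square of six times the volume -/
noncomputable def dg : ℝ :=
  gm v 1 1 * gm v 2 2 * gm v 3 3 + 2 * gm v 1 2 * gm v 1 3 * gm v 2 3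
    - gm v 1 1 * gm v 2 3 ^ 2 - gm v 2 2 * gm v 1 3 ^ 2 - gm v 3 3 * gm v 1 2 ^ 2

lemma face_d (i : Fin 6) : uu v i * pp v i - up v i ^ 2 = ar2 v (ed i) := by
  have h1 := gm_zero_left v
  have h2 := gm_zero_right v
  have h3 := gm_comm v 2 1
  have h4 := gm_comm v 3 1
  have h5 := gm_comm v 3 2
  unfold uu pp up
  rw [inner_diff, inner_diff, inner_diff]
  fin_cases i <;> simp [ea, eb, ec, ed, ar2, h1, h2, h3, h4, h5] <;> ring

lemma face_c (i : Fin 6) : uu v i * qq v i - uq v i ^ 2 = ar2 v (ec i) := by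
  have h1 := gm_zero_left v
  have h2 := gm_zero_right v
  have h3 := gm_comm v 2 1
  have h4 := gm_comm v 3 1
  have h5 := gm_comm v 3 2
  unfold uu qq uq
  rw [inner_diff, inner_diff, inner_diff]
  fin_cases i <;> simp [ea, eb, ec, ed, ar2, h1, h2, h3, h4, h5] <;> ring

lemma det_eq (i : Fin 6) :
    (uu v i * pp v i - up v i ^ 2) * (uu v i * qq v i - uq v i ^ 2)
      - (uu v i * pq v i - up v i * uq v i) ^ 2 = uu v i * dg v := by
  have h1 := gm_zero_left v
  have h2 := gm_zero_right v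
  have h3 := gm_comm v 2 1
  have h4 := gm_comm v 3 1
  have h5 := gm_comm v 3 2
  unfold uu qq uq pp up pq dg
  rw [inner_diff, inner_diff, inner_diff, inner_diff, inner_diff, inner_diff]
  fin_cases i <;> simp [ea, eb, ec, ed, h1, h2, h3, h4, h5] <;> ring

lemma sum_cos_gram : ∑ i, (uu v i * pq v i - up v i * uq v i) = (∑ c, ar2 v c) / 2 := by
  have h1 := gm_zero_left v
  have h2 := gm_zero_right v
  have h3 := gm_comm v 2 1
  have h4 := gm_comm v 3 1
  have h5 := gm_comm v 3 2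
  unfold uu uq up pq
  simp only [inner_diff v, Fin.sum_univ_succ, Fin.sum_univ_zero]
  simp [ea, eb, ec, ed, ar2, h1, h2, h3, h4, h5]
  ring

end Pool.Agent.TetRel
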