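import Pool.Agent.TetRel.Frac

/-! # Tiles: counting and the local volume identity (helper83) -/

set_option autoImplicit false

open MeasureTheory Set Module Metric
open scoped Pointwise

namespace Pool.Agent.TetRel

variable (b : AffineBasis (Fin 4) ℝ E3)

/-- `S` is a tiling by copies of the tetrahedron, `Φ A` carries the tetrahedron to the tile `A`. -/
structure IsTiling (S : Set (Set E3)) (Φ : Set E3 → (E3 ≃ᵢ E3)) : Prop where
  eq : ∀ A ∈ S, A = Φ A '' hull b
  cover : ∀ x, ∃ A ∈ S, x ∈ A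
  disj : ∀ A ∈ S, ∀ B ∈ S, A ≠ B → Disjoint (interior A) (interior B)

lemma hull_compact : IsCompact (hull b) := (finite_range b).isCompact_convexHull ℝ

lemma hull_convex : Convex ℝ (hull b) := convex_convexHull ℝ _

lemma exists_D : ∃ D > 0, ∀ x ∈ hull b, ∀ y ∈ hull b, dist x y ≤ D := by
  refine ⟨diam (hull b) + 1, by have := diam_nonneg (s := hull b); linarith, fun x hx y hy => ?_⟩
  have := dist_le_diam_of_mem (hull_compact b).isBounded hx hy
  linarith

lemma hull_int_nonempty : (interior (hull b)).Nonempty := by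
  let p : E3 := Finset.univ.affineCombination ℝ b (fun _ => (1 / 4 : ℝ))
  have hs : ∑ _c : Fin 4, (1 / 4 : ℝ) = 1 := by norm_num
  have hp : ∀ c, b.coord c p = 1 / 4 := fun c =>
    b.coord_apply_combination_of_mem (Finset.mem_univ c) hs
  exact ⟨p, (mem_int b p).2 fun c => by rw [hp]; norm_num⟩

lemma vol_hull_lt : vol (hull b) < ⊤ := (hull_compact b).measure_lt_top

lemma V_pos : 0 < vr (hull b) := by
  unfold vr
  refine ENNReal.toReal_pos ?_ (vol_hull_lt b).ne
  exact (Measure.measure_pos_of_nonempty_interior vol (hull_int_nonempty b)).ne'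

variable {b}
variable {S : Set (Set E3)} {Φ : Set E3 → (E3 ≃ᵢ E3)} (h : IsTiling b S Φ)
include h

lemma IsTiling.closed {A : Set E3} (hA : A ∈ S) : IsClosed A := by
  rw [h.eq A hA]
  exact (Φ A).toHomeomorph.isClosed_image.2 (hull_compact b).isClosed

lemma IsTiling.vol_eq {A : Set E3} (hA : A ∈ S) : vol A = vol (hull b) := by
  conv_lhs => rw [h.eq A hA]
  exact vol_image _ _

lemma IsTiling.frontier_null {A : Set E3} (hA : A ∈ S) : vol (frontier A) = 0 := by
  have e : frontier A = Φ A '' frontier (hull b) := by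
    conv_lhs => rw [h.eq A hA]
    exact ((Φ A).toHomeomorph.image_frontier _).symm
  rw [e, vol_image]
  exact (hull_convex b).addHaar_frontier vol

lemma IsTiling.vol_int {A : Set E3} (hA : A ∈ S) : vol (interior A) = vol (hull b) := by
  refine le_antisymm ((measure_mono interior_subset).trans (h.vol_eq hA).le) ?_
  rw [← h.vol_eq hA]
  have h1 : A ⊆ interior A ∪ frontier A := by
    intro x hx
    by_cases hi : x ∈ interior A
    · exact Or.inl hi
    · exact Or.inr ⟨subset_closure hx, hi⟩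
  calc vol A ≤ vol (interior A ∪ frontier A) := measure_mono h1
    _ ≤ vol (interior A) + vol (frontier A) := measure_union_le _ _
    _ = vol (interior A) := by rw [h.frontier_null hA, add_zero]

lemma IsTiling.dist_le {D : ℝ} (hD : ∀ x ∈ hull b, ∀ y ∈ hull b, dist x y ≤ D)
    {A : Set E3} (hA : A ∈ S) {x y : E3} (hx : x ∈ A) (hy : y ∈ A) : dist x y ≤ D := by
  rw [h.eq A hA] at hx hy
  obtain ⟨u, hu, rfl⟩ := hx
  obtain ⟨w, hw, rfl⟩ := hy
  rw [(Φ A).dist_eq]
  exact hD u hu w hw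

lemma IsTiling.count_le {F : Finset (Set E3)} (hF : ∀ A ∈ F, A ∈ S) {K : Set E3}
    (hK : ∀ A ∈ F, A ⊆ K) (hfin : vol K ≠ ⊤) : (F.card : ℝ) * vr (hull b) ≤ vr K := by
  have h1 : vol (⋃ A ∈ F, interior A) = ∑ A ∈ F, vol (interior A) := by
    apply measure_biUnion_finset
    · intro A hA B hB hne
      exact h.disj A (hF A hA) B (hF B hB) hne
    · intro A _; exact isOpen_interior.measurableSet
  have h2 : vol (⋃ A ∈ F, interior A) ≤ vol K := by
    refine measure_mono ?_
    exact iUnion₂_subset fun A hA => interior_subset.trans (hK A hA)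
  have h3 : ∑ A ∈ F, vol (interior A) = F.card * vol (hull b) := by
    rw [Finset.sum_congr rfl fun A hA => h.vol_int (hF A hA)]
    simp
  rw [h1, h3] at h2
  have h4 := ENNReal.toReal_mono hfin h2
  rw [ENNReal.toReal_mul, ENNReal.toReal_natCast] at h4
  exact h4

lemma IsTiling.le_count {F : Finset (Set E3)} (hF : ∀ A ∈ F, A ∈ S) {K : Set E3}
    (hK : K ⊆ ⋃ A ∈ F, A) : vr K ≤ (F.card : ℝ) * vr (hull b) := by
  have h1 : vol K ≤ ∑ A ∈ F, vol A := (measure_mono hK).trans (measure_biUnion_finset_le _ _)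
  rw [Finset.sum_congr rfl fun A hA => h.vol_eq (hF A hA)] at h1
  simp only [Finset.sum_const, nsmul_eq_mul] at h1
  have h4 := ENNReal.toReal_mono
    (ENNReal.mul_ne_top (ENNReal.natCast_ne_top _) (vol_hull_lt b).ne) h1
  rw [ENNReal.toReal_mul, ENNReal.toReal_natCast] at h4
  exact h4

lemma IsTiling.finite (R : ℝ) : {A | A ∈ S ∧ (A ∩ ball (0 : E3) R).Nonempty}.Finite := by
  obtain ⟨D, hD0, hD⟩ := exists_D b
  by_contra hinf
  have hinf : {A | A ∈ S ∧ (A ∩ ball (0 : E3) R).Nonempty}.Infinite := hinf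
  obtain ⟨k, hk⟩ := exists_nat_gt (vr (ball (0 : E3) (R + D)) / vr (hull b))
  obtain ⟨F, hF, hc⟩ := hinf.exists_subset_card_eq k
  have h1 := h.count_le (F := F) (K := ball (0 : E3) (R + D)) (fun A hA => (hF hA).1) ?_
    measure_ball_lt_top.ne
  · rw [hc] at h1
    rw [div_lt_iff₀ (V_pos b)] at hk
    linarith
  · intro A hA y hy
    obtain ⟨hAS, x, hx, hxR⟩ := hF hA
    have := h.dist_le hD hAS hy hx
    rw [mem_ball] at hxR ⊢
    linarith [dist_triangle y x 0]

/-- the tiles meeting the open ball of radius `R` around the origin -/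
noncomputable def IsTiling.tiles (R : ℝ) : Finset (Set E3) := (h.finite R).toFinset

lemma IsTiling.mem_tiles {R : ℝ} {A : Set E3} :
    A ∈ h.tiles R ↔ A ∈ S ∧ (A ∩ ball (0 : E3) R).Nonempty := by
  simp [IsTiling.tiles]

lemma IsTiling.near {x : E3} : ∃ r > 0, ∀ y ∈ ball x r, ∀ A ∈ S, y ∈ A → x ∈ A := by
  classical
  let G := (h.tiles (‖x‖ + 1)).filter (fun A => x ∉ A)
  have hcl : IsClosed (⋃ A ∈ G, A) := by
    have := G.finite_toSet.isClosed_biUnion (f := fun A : Set E3 => A) (fun A hA => h.closed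
      (h.mem_tiles.1 (Finset.mem_filter.1 hA).1).1)
    simpa using this
  have hx : x ∈ (⋃ A ∈ G, A)ᶜ := by
    intro hx
    simp only [mem_iUnion, exists_prop] at hx
    obtain ⟨A, hA, hxA⟩ := hx
    exact (Finset.mem_filter.1 hA).2 hxA
  obtain ⟨r, hr, hrs⟩ := Metric.isOpen_iff.1 hcl.isOpen_compl x hx
  refine ⟨min r 1, lt_min hr one_pos, fun y hy A hA hyA => ?_⟩
  by_contra hxA
  have hy1 : y ∈ ball x r := ball_subset_ball (min_le_left _ _) hy
  have hy2 : y ∈ ball x 1 := ball_subset_ball (min_le_right _ _) hy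
  apply hrs hy1
  simp only [mem_iUnion, exists_prop]
  refine ⟨A, Finset.mem_filter.2 ⟨h.mem_tiles.2 ⟨hA, y, hyA, ?_⟩, hxA⟩, hyA⟩
  rw [mem_ball] at hy2 ⊢
  have := dist_triangle y x 0
  rw [dist_zero_right] at this ⊢
  rw [dist_zero_right] at this
  linarith

/-- the local volume fractions of the tiles at a point have sum one -/
lemma IsTiling.local_sum {x : E3} {F : Finset (Set E3)} (hF : ∀ A, A ∈ F ↔ A ∈ S ∧ x ∈ A) :
    ∑ A ∈ F, fr b (zs b ((Φ A).symm x)) = 1 := by
  obtain ⟨r1, hr1, hnear⟩ := h.near (x := x)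
  have hex : ∀ A, ∃ r0 > 0, A ∈ F → ∀ r, 0 < r → r ≤ r0 →
      vr (A ∩ ball x r) = fr b (zs b ((Φ A).symm x)) * vr (ball (0 : E3) r) := by
    intro A
    by_cases hA : A ∈ F
    · obtain ⟨hAS, hxA⟩ := (hF A).1 hA
      have e := h.eq A hAS
      have hx' : x ∈ Φ A '' hull b := by rw [← e]; exact hxA
      obtain ⟨r0, h0, hr0⟩ := local_vol b (Φ A) hx'
      refine ⟨r0, h0, fun _ r hr hrr => ?_⟩
      have := hr0 r hr hrr
      rw [← e] at this
      exact this
    · exact ⟨1, one_pos, fun hc => absurd hc hA⟩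
  choose ρ hρ hρ2 using hex
  have hr : ∃ r > 0, r ≤ r1 ∧ ∀ A ∈ F, r ≤ ρ A := by
    rcases F.eq_empty_or_nonempty with rfl | hne
    · exact ⟨r1, hr1, le_rfl, by simp⟩
    · refine ⟨min r1 (F.inf' hne ρ), lt_min hr1 ?_, min_le_left _ _, fun A hA => ?_⟩
      · rw [Finset.lt_inf'_iff]; exact fun A _ => hρ A
      · exact (min_le_right _ _).trans (Finset.inf'_le _ hA)
  obtain ⟨r, hr0, hrr1, hrF⟩ := hr
  have hcov : ball x r = ⋃ A ∈ F, (A ∩ ball x r) := by
    ext y
    simp only [mem_iUnion, mem_inter_iff, exists_prop]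
    constructor
    · intro hy
      obtain ⟨A, hA, hyA⟩ := h.cover y
      exact ⟨A, (hF A).2 ⟨hA, hnear y (ball_subset_ball hrr1 hy) A hA hyA⟩, hyA, hy⟩
    · rintro ⟨A, _, _, hy⟩; exact hy
  have hadd : vol (ball x r) = ∑ A ∈ F, vol (A ∩ ball x r) := by
    conv_lhs => rw [hcov]
    apply measure_biUnion_finset₀
    · intro A hA B hB hne
      have hAS := ((hF A).1 hA).1
      have hBS := ((hF B).1 hB).1
      refine measure_mono_null (t := frontier A ∪ frontier B) ?_
        (measure_union_null (h.frontier_null hAS) (h.frontier_null hBS))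
      rintro y ⟨⟨hyA, _⟩, ⟨hyB, _⟩⟩
      by_cases hiA : y ∈ interior A
      · by_cases hiB : y ∈ interior B
        · exact absurd hiB (disjoint_left.1 (h.disj A hAS B hBS hne) hiA)
        · exact Or.inr ⟨subset_closure hyB, hiB⟩
      · exact Or.inl ⟨subset_closure hyA, hiA⟩
    · intro A hA
      exact ((h.closed ((hF A).1 hA).1).measurableSet.inter measurableSet_ball).nullMeasurableSet
  have h2 : vr (ball x r) = ∑ A ∈ F, vr (A ∩ ball x r) := by
    unfold vr
    rw [hadd, ENNReal.toReal_sum]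
    intro A _
    exact (vol_lt_top' (x := x) (r := r) inter_subset_right).ne
  rw [Finset.sum_congr rfl fun A hA => hρ2 A hA r hr0 (hrF A hA), vr_ball_eq,
    ← Finset.sum_mul] at h2
  have h5 := vr_ball_pos (0 : E3) hr0
  have h6 : 1 * vr (ball (0 : E3) r) =
      (∑ A ∈ F, fr b (zs b ((Φ A).symm x))) * vr (ball (0 : E3) r) := by rw [one_mul]; exact h2
  exact (mul_right_cancel₀ h5.ne' h6).symm

end Pool.Agent.TetRel
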